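import Mathlib

open Polynomial

namespace Pool.Agent.Helper14

section Field

variable (k : Type) [Field k]

/-- u = t (1 - t)^29 in k(t). -/
noncomputable def uu : RatFunc k := RatFunc.X * (1 - RatFunc.X) ^ 29

noncomputable def uP : k[X] := X * (1 - X) ^ 29

lemma algebraMap_uP : algebraMap k[X] (RatFunc k) (uP k) = uu k := by
  simp [uP, uu]

noncomputable def fK : (RatFunc k)[X] := X ^ 67 - C (uu k)

lemma intDegree_one_sub_X : (1 - RatFunc.X : RatFunc k).intDegree = 1 := by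
  have h : (1 - RatFunc.X : RatFunc k) = algebraMap k[X] (RatFunc k) (1 - X) := by simp
  rw [h, RatFunc.intDegree_polynomial]
  have : (1 - X : k[X]).natDegree = 1 := by
    have : (1 - X : k[X]) = -(X - C 1) := by simp
    rw [this, natDegree_neg, natDegree_X_sub_C]
  rw [this]; rfl

lemma X_ne_zero' : (RatFunc.X : RatFunc k) ≠ 0 := RatFunc.X_ne_zero

lemma one_sub_X_ne_zero : (1 - RatFunc.X : RatFunc k) ≠ 0 := by
  intro h
  have := intDegree_one_sub_X k
  rw [h] at this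
  simp at this

lemma intDegree_pow {x : RatFunc k} (hx : x ≠ 0) (n : ℕ) :
    (x ^ n).intDegree = n * x.intDegree := by
  induction n with
  | zero => simp
  | succ n ih =>
    rw [pow_succ, RatFunc.intDegree_mul (pow_ne_zero _ hx) hx, ih]; push_cast; ring

lemma uu_ne_zero : uu k ≠ 0 := mul_ne_zero (X_ne_zero' k) (pow_ne_zero _ (one_sub_X_ne_zero k))

lemma intDegree_uu : (uu k).intDegree = 30 := by
  rw [uu, RatFunc.intDegree_mul (X_ne_zero' k) (pow_ne_zero _ (one_sub_X_ne_zero k)),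
    intDegree_pow k (one_sub_X_ne_zero k), intDegree_one_sub_X, RatFunc.intDegree_X]; norm_num

lemma fK_irreducible : Irreducible (fK k) := by
  apply X_pow_sub_C_irreducible_of_prime (by norm_num)
  intro b hb
  have hb0 : b ≠ 0 := by
    rintro rfl
    apply uu_ne_zero k; rw [← hb]; simp
  have := intDegree_pow k hb0 67
  rw [hb, intDegree_uu] at this
  omega

instance : Fact (Irreducible (fK k)) := ⟨fK_irreducible k⟩

/-- the function field K = k(t)(y), y^67 = t(1-t)^29. -/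
abbrev KK : Type := AdjoinRoot (fK k)

noncomputable example : Field (KK k) := inferInstance
noncomputable example : Algebra k (KK k) := inferInstance
noncomputable example : Algebra k[X] (KK k) := inferInstance
example : IsScalarTower k[X] (RatFunc k) (KK k) := inferInstance
example : IsScalarTower k (RatFunc k) (KK k) := inferInstance
example : IsScalarTower k k[X] (KK k) := inferInstance

noncomputable def tt : KK k := algebraMap (RatFunc k) (KK k) RatFunc.X
noncomputable def yy : KK k := AdjoinRoot.root (fK k)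

lemma algebraMap_X : algebraMap k[X] (KK k) X = tt k := by
  rw [IsScalarTower.algebraMap_apply k[X] (RatFunc k) (KK k)]; simp [tt]

lemma fK_monic : (fK k).Monic := monic_X_pow_sub_C _ (by norm_num)

lemma fK_natDegree : (fK k).natDegree = 67 := natDegree_X_pow_sub_C

lemma yy_pow : yy k ^ 67 = tt k * (1 - tt k) ^ 29 := by
  have h : aeval (yy k) (fK k) = 0 := by
    rw [yy, AdjoinRoot.aeval_eq, AdjoinRoot.mk_self]
  have key : ∀ y : KK k, aeval y (X ^ 67 - C (uu k) : (RatFunc k)[X])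
      = y ^ 67 - algebraMap (RatFunc k) (KK k) (uu k) := by
    intro y
    simp only [map_sub, map_pow, aeval_X, aeval_C]
  have h2 := (key (yy k)).symm.trans h
  rw [sub_eq_zero] at h2
  rw [h2]
  simp only [uu, map_mul, map_pow, map_sub, map_one]
  rfl

instance : FiniteDimensional (RatFunc k) (KK k) := 
  (AdjoinRoot.powerBasis (fK_irreducible k).ne_zero).finite

lemma tt_ne_zero : tt k ≠ 0 := by
  rw [tt]
  exact (map_ne_zero_iff _ (algebraMap (RatFunc k) (KK k)).injective).2 (X_ne_zero' k)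

lemma one_sub_tt_ne_zero : 1 - tt k ≠ 0 := by
  have : 1 - tt k = algebraMap (RatFunc k) (KK k) (1 - RatFunc.X) := by
    rw [map_sub, map_one, tt]
  rw [this]
  exact (map_ne_zero_iff _ (algebraMap (RatFunc k) (KK k)).injective).2 (one_sub_X_ne_zero k)

lemma yy_ne_zero : yy k ≠ 0 := by
  intro h
  have := yy_pow k
  rw [h] at this
  have h2 : tt k * (1 - tt k) ^ 29 ≠ 0 :=
    mul_ne_zero (tt_ne_zero k) (pow_ne_zero _ (one_sub_tt_ne_zero k))
  apply h2; rw [← this]; simp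

variable {k} in
lemma fK_separable (h67 : (67 : k) ≠ 0) : (fK k).Separable := by
  apply separable_X_pow_sub_C _ _ (uu_ne_zero k)
  have : ((67 : ℕ) : RatFunc k) = algebraMap k (RatFunc k) 67 := by
    rw [map_ofNat]; rfl
  rw [this]
  exact (map_ne_zero_iff _ (algebraMap k (RatFunc k)).injective).2 h67

end Field


section Lift

variable {k : Type} [Field k] {L : Type*} [Field L] [Algebra k L]

noncomputable def liftT (t' : L) (ht : Transcendental k t') : RatFunc k →ₐ[k] L :=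
  RatFunc.liftAlgHom (aeval t')
    (nonZeroDivisors_le_comap_nonZeroDivisors_of_injective _ (transcendental_iff_injective.1 ht))

lemma liftT_algebraMap (t' : L) (ht : Transcendental k t') (P : k[X]) :
    liftT t' ht (algebraMap k[X] (RatFunc k) P) = aeval t' P := by
  have := RatFunc.liftAlgHom_apply_div (φ := (aeval t' : k[X] →ₐ[k] L))
    (hφ := nonZeroDivisors_le_comap_nonZeroDivisors_of_injective _
      (transcendental_iff_injective.1 ht)) P 1
  simpa [liftT] using this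

lemma liftT_X (t' : L) (ht : Transcendental k t') : liftT t' ht RatFunc.X = t' := by
  have := liftT_algebraMap t' ht X
  simpa using this

lemma liftT_uu (t' : L) (ht : Transcendental k t') :
    liftT t' ht (uu k) = t' * (1 - t') ^ 29 := by
  simp only [uu, map_mul, map_pow, map_sub, map_one, liftT_X]

noncomputable def liftK (t' y' : L) (ht : Transcendental k t') (hy : y' ^ 67 = t' * (1 - t') ^ 29) :
    KK k →ₐ[k] L :=
  AdjoinRoot.liftAlgHom (fK k) (liftT t' ht) y' (by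
    show eval₂ _ _ (X ^ 67 - C (uu k) : (RatFunc k)[X]) = 0
    rw [eval₂_sub, eval₂_pow, eval₂_X, eval₂_C]
    show y' ^ 67 - liftT t' ht (uu k) = 0
    rw [liftT_uu, hy, sub_self])

variable (t' y' : L) (ht : Transcendental k t') (hy : y' ^ 67 = t' * (1 - t') ^ 29)

@[simp] lemma liftK_tt : liftK t' y' ht hy (tt k) = t' := by
  have : liftK t' y' ht hy (tt k) = liftT t' ht RatFunc.X :=
    AdjoinRoot.liftAlgHom_of _ _ _ _ _
  rw [this, liftT_X]

@[simp] lemma liftK_yy : liftK t' y' ht hy (yy k) = y' :=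
  AdjoinRoot.liftAlgHom_root _ _ _ _

lemma algHom_ext_KK {φ ψ : KK k →ₐ[k] L} (h1 : φ (tt k) = ψ (tt k)) (h2 : φ (yy k) = ψ (yy k)) :
    φ = ψ := by
  have h3 : (φ.comp (IsScalarTower.toAlgHom k (RatFunc k) (KK k))) =
      (ψ.comp (IsScalarTower.toAlgHom k (RatFunc k) (KK k))) := by
    apply AlgHom.coe_ringHom_injective
    apply IsFractionRing.ringHom_ext (A := k[X])
    intro P
    have h4 : (φ.comp (IsScalarTower.toAlgHom k k[X] (KK k))) =
      (ψ.comp (IsScalarTower.toAlgHom k k[X] (KK k))) := by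
      apply Polynomial.algHom_ext
      simpa [algebraMap_X] using h1
    have h5 := DFunLike.congr_fun h4 P
    simpa only [AlgHom.comp_apply, IsScalarTower.coe_toAlgHom', AlgHom.coe_toRingHom, 
      ← IsScalarTower.algebraMap_apply] using h5
  apply AdjoinRoot.algHom_ext'
  · exact h3
  · exact h2

end Lift

section Identities

variable {L : Type*} [Field L] {t y b : L}

lemma id_e2 (h1 : 1 - t ≠ 0) : (1 - (1 - t)⁻¹) = - t * (1 - t)⁻¹ := by field_simp; ring

lemma id_aux' (h1 : b ≠ 0) (hy : y ^ 67 = t * b ^ 29) :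
    (-y ^ 29 * b⁻¹ ^ 13) ^ 67 = b⁻¹ * (- t * b⁻¹) ^ 29 := by
  have e : (-y ^ 29 * b⁻¹ ^ 13) ^ 67 = -((y ^ 67) ^ 29) * b⁻¹ ^ 871 := by ring
  rw [e, hy]
  have e5 : b ^ 841 * b⁻¹ ^ 841 = 1 := by
    rw [← mul_pow, mul_inv_cancel₀ h1, one_pow]
  generalize b⁻¹ = a at *
  calc -(t * b ^ 29) ^ 29 * a ^ 871
      = -(t ^ 29) * (b ^ 841 * a ^ 841) * a ^ 30 := by ring
    _ = a * (-t * a) ^ 29 := by rw [e5]; ring

lemma id_aux (h1 : 1 - t ≠ 0) (hy : y ^ 67 = t * (1 - t) ^ 29) :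
    (-y ^ 29 * ((1 - t)⁻¹) ^ 13) ^ 67 = (1 - t)⁻¹ * (1 - (1 - t)⁻¹) ^ 29 := by
  rw [id_e2 h1]; exact id_aux' h1 hy

lemma id_sig2_t (h0 : t ≠ 0) (h1 : 1 - t ≠ 0) : (1 - (1 - t)⁻¹)⁻¹ = 1 - t⁻¹ := by
  rw [id_e2 h1, mul_inv, inv_inv]
  field_simp
  ring

lemma id_sig2_y' (h0 : t ≠ 0) (h1 : b ≠ 0) (hy : y ^ 67 = t * b ^ 29) :
    -(-y ^ 29 * b⁻¹ ^ 13) ^ 29 * ((-t)⁻¹ * b) ^ 13
      = - y ^ 37 * t⁻¹ * b⁻¹ ^ 16 := by
  have e : -(-y ^ 29 * b⁻¹ ^ 13) ^ 29
      = (y ^ 67) ^ 12 * y ^ 37 * b⁻¹ ^ 377 := by ring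
  rw [e, hy, inv_neg]
  have e5 : b ^ 361 * b⁻¹ ^ 361 = 1 := by
    rw [← mul_pow, mul_inv_cancel₀ h1, one_pow]
  have e7 : t ^ 12 * t⁻¹ ^ 12 = 1 := by
    rw [← mul_pow, mul_inv_cancel₀ h0, one_pow]
  generalize b⁻¹ = a at *
  generalize t⁻¹ = c at *
  calc (t * b ^ 29) ^ 12 * y ^ 37 * a ^ 377 * (-c * b) ^ 13
      = - y ^ 37 * c * (t ^ 12 * c ^ 12) * (b ^ 361 * a ^ 361) * a ^ 16 := by ring
    _ = _ := by rw [e5, e7]; ring

lemma id_sig2_y (h0 : t ≠ 0) (h1 : 1 - t ≠ 0) (hy : y ^ 67 = t * (1 - t) ^ 29) :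
    -(-y ^ 29 * (1 - t)⁻¹ ^ 13) ^ 29 * ((1 - (1 - t)⁻¹)⁻¹) ^ 13
      = - y ^ 37 * t⁻¹ * ((1 - t)⁻¹) ^ 16 := by
  rw [id_e2 h1, mul_inv, inv_inv]
  exact id_sig2_y' h0 h1 hy

lemma id_sig3_y' (h0 : t ≠ 0) (h1 : b ≠ 0) (hy : y ^ 67 = t * b ^ 29) :
    -(-y ^ 29 * b⁻¹ ^ 13) ^ 37 * b * ((-t)⁻¹ * b) ^ 16 = y := by
  have e : -(-y ^ 29 * b⁻¹ ^ 13) ^ 37
      = (y ^ 67) ^ 16 * y * b⁻¹ ^ 481 := by ring
  rw [e, hy, inv_neg]
  have e5 : b ^ 481 * b⁻¹ ^ 481 = 1 := by
    rw [← mul_pow, mul_inv_cancel₀ h1, one_pow]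
  have e7 : t ^ 16 * t⁻¹ ^ 16 = 1 := by
    rw [← mul_pow, mul_inv_cancel₀ h0, one_pow]
  generalize b⁻¹ = a at *
  generalize t⁻¹ = c at *
  calc (t * b ^ 29) ^ 16 * y * a ^ 481 * b * (-c * b) ^ 16
      = y * (t ^ 16 * c ^ 16) * (b ^ 481 * a ^ 481) := by ring
    _ = _ := by rw [e5, e7]; ring

lemma id_sig3_y (h0 : t ≠ 0) (h1 : 1 - t ≠ 0) (hy : y ^ 67 = t * (1 - t) ^ 29) :
    -(-y ^ 29 * (1 - t)⁻¹ ^ 13) ^ 37 * ((1 - t)⁻¹)⁻¹ * ((1 - (1 - t)⁻¹)⁻¹) ^ 16 = y := by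
  rw [id_e2 h1, mul_inv, inv_inv]
  exact id_sig3_y' h0 h1 hy

end Identities

section Sigma

variable (k : Type) [Field k]

lemma tt_transcendental : Transcendental k (tt k) := by
  rw [transcendental_iff_injective]
  have : (aeval (tt k) : k[X] →ₐ[k] KK k) = IsScalarTower.toAlgHom k k[X] (KK k) := by
    apply Polynomial.algHom_ext
    simp [algebraMap_X]
  rw [this]
  have h : Function.Injective ((algebraMap (RatFunc k) (KK k)).comp
      (algebraMap k[X] (RatFunc k))) :=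
    (algebraMap (RatFunc k) (KK k)).injective.comp (RatFunc.algebraMap_injective k)
  rw [← IsScalarTower.algebraMap_eq] at h
  exact h

lemma sigma_t_transcendental : Transcendental k ((1 - tt k)⁻¹) := by
  intro h
  apply tt_transcendental k
  have h1 : IsAlgebraic k (1 - tt k) := by simpa using h.inv
  have h2 : IsAlgebraic k (1 - (1 - tt k)) := isAlgebraic_one.sub h1
  simpa using h2

/-- the automorphism of order three. -/
noncomputable def sig : KK k →ₐ[k] KK k :=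
  liftK ((1 - tt k)⁻¹) (-(yy k) ^ 29 * ((1 - tt k)⁻¹) ^ 13) (sigma_t_transcendental k)
    (id_aux (one_sub_tt_ne_zero k) (yy_pow k))

@[simp] lemma sig_tt : sig k (tt k) = (1 - tt k)⁻¹ := liftK_tt _ _ _ _
@[simp] lemma sig_yy : sig k (yy k) = -(yy k) ^ 29 * ((1 - tt k)⁻¹) ^ 13 := liftK_yy _ _ _ _

lemma sig2_tt : sig k (sig k (tt k)) = 1 - (tt k)⁻¹ := by
  rw [sig_tt, map_inv₀, map_sub, map_one, sig_tt]
  exact id_sig2_t (tt_ne_zero k) (one_sub_tt_ne_zero k)

lemma sig3_tt : sig k (sig k (sig k (tt k))) = tt k := by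
  rw [sig2_tt, map_sub, map_one, map_inv₀, sig_tt, inv_inv, sub_sub_cancel]

lemma sig2_yy : sig k (sig k (yy k)) = -(yy k) ^ 37 * (tt k)⁻¹ * ((1 - tt k)⁻¹) ^ 16 := by
  rw [sig_yy, map_mul, map_neg, map_pow, sig_yy, map_pow, map_inv₀, map_sub, map_one, sig_tt]
  exact id_sig2_y (tt_ne_zero k) (one_sub_tt_ne_zero k) (yy_pow k)

lemma sig3_yy : sig k (sig k (sig k (yy k))) = yy k := by
  rw [sig2_yy, map_mul, map_mul, map_neg, map_pow, map_pow, map_inv₀, map_inv₀, map_sub, map_one,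
    sig_tt, sig_yy]
  exact id_sig3_y (tt_ne_zero k) (one_sub_tt_ne_zero k) (yy_pow k)

lemma sig3 (x : KK k) : sig k (sig k (sig k x)) = x := by
  have : ((sig k).comp ((sig k).comp (sig k))) = AlgHom.id k (KK k) :=
    algHom_ext_KK (sig3_tt k) (sig3_yy k)
  exact DFunLike.congr_fun this x

variable {k}

/-- y ↦ ζ y -/
noncomputable def tau (ζ : k) (hζ : ζ ^ 67 = 1) : KK k →ₐ[k] KK k :=
  liftK (tt k) (algebraMap k (KK k) ζ * yy k) (tt_transcendental k) (by
    rw [mul_pow, ← map_pow, hζ, map_one, one_mul, yy_pow])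

@[simp] lemma tau_tt (ζ : k) (hζ : ζ ^ 67 = 1) : tau ζ hζ (tt k) = tt k := liftK_tt _ _ _ _
@[simp] lemma tau_yy (ζ : k) (hζ : ζ ^ 67 = 1) :
    tau ζ hζ (yy k) = algebraMap k (KK k) ζ * yy k := liftK_yy _ _ _ _

end Sigma

end Pool.Agent.Helper14
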