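import Mathlib

open Polynomial

namespace Pool.Agent.Helper14

/-- `F/k` is the function field of a (smooth projective, geometrically integral) curve over the
finite field `k`: it is a finite extension of a rational function field `k(w)` in one variable,
and `k` is algebraically closed in `F`. -/
def IsCurveFunctionField (k F : Type) [Field k] [Field F] [Algebra k F] : Prop :=
  (∃ w : F, Transcendental k w ∧ FiniteDimensional (IntermediateField.adjoin k {w}) F) ∧
  ∀ x : F, IsAlgebraic k x → ∃ c : k, algebraMap k F c = x

/-- The `E`-valued points of the smooth projective model of `F/k`: a valuation ring `V` of `F`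
containing `k`, together with a homomorphism `V → E` over `k`. -/
def CurvePoint (k F E : Type) [Field k] [Field F] [Field E] [Algebra k F] [Algebra k E] : Type :=
  {P : Σ V : ValuationSubring F, (V →+* E) //
    ∀ c : k, ∃ h : algebraMap k F c ∈ P.1, P.2 ⟨algebraMap k F c, h⟩ = algebraMap k E c}

/-- `L` is the `L`-polynomial (numerator of the zeta function) of the curve with function field
`F` over the finite field `k`: `L(0) = 1` and for every finite extension `E/k` the number of
`E`-points is `|E| + 1 - ∑ α ^ [E:k]`, where `α` runs over the reciprocals of the complex roots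
of `L` (with multiplicity). -/
def IsLPolynomial (k F : Type) [Field k] [Field F] [Algebra k F] (L : ℤ[X]) : Prop :=
  L.coeff 0 = 1 ∧ ∀ (E : Type) [Field E] [Finite E] [Algebra k E],
    (Nat.card (CurvePoint k F E) : ℂ) = (Nat.card E : ℂ) + 1 -
      (((L.map (Int.castRingHom ℂ)).roots).map (fun z => (z⁻¹) ^ (Module.finrank k E))).sum

/-- `g` is convex on `[0, deg L]` and lies below all the points `(i, v_p(a_i) / r)`, where
`L = ∑ a_i T ^ i` and `i` runs over the indices with `a_i ≠ 0`. -/
def IsBelow (p r : ℕ) (L : ℤ[X]) (g : ℝ → ℝ) : Prop :=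
  ConvexOn ℝ (Set.Icc (0 : ℝ) L.natDegree) g ∧
  ∀ i ≤ L.natDegree, L.coeff i ≠ 0 → g i ≤ (padicValInt p (L.coeff i) : ℝ) / r

/-- `N` is, on `[0, deg L]`, the Newton polygon of `L` for the `p`-adic valuation divided by `r`
(i.e. the `q`-adic Newton polygon, `q = p ^ r`): the largest convex function on `[0, deg L]`
lying below all the points `(i, v_p(a_i) / r)`, `a_i ≠ 0`. -/
def IsNewtonPolygon (p r : ℕ) (L : ℤ[X]) (N : ℝ → ℝ) : Prop :=
  IsBelow p r L N ∧
  ∀ g : ℝ → ℝ, IsBelow p r L g → ∀ x ∈ Set.Icc (0 : ℝ) L.natDegree, g x ≤ N x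

/-- The polygon `ξ` with vertices `(0,0)`, `(11,5)`, `(22,11)`: slopes `5/11` and `6/11`. -/
noncomputable def xi (x : ℝ) : ℝ := max (5 / 11 * x) (6 / 11 * x - 1)

end Pool.Agent.Helper14
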