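import Mathlib

namespace Pool.Agent.Helper14

/-- counting the orbits of an order three map on the set of points where a commuting map
agrees with a power of it. -/
theorem orbit_count {Z Y : Type} (s φ : Z → Z) (hs : ∀ z, s (s (s z)) = z)
    (hφ : ∀ z, φ (s z) = s (φ z)) (Φ : Z → Y)
    (hΦ : ∀ z z', Φ z = Φ z' ↔ (z' = z ∨ z' = s z ∨ z' = s (s z)))
    (h0 : Finite {z // φ z = z}) (h1 : Finite {z // φ z = s z})
    (h2 : Finite {z // φ z = s (s z)}) :
    3 * Nat.card {y : Y // ∃ z, Φ z = y ∧ Φ (φ z) = Φ z} =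
      Nat.card {z // φ z = z} + Nat.card {z // φ z = s z} + Nat.card {z // φ z = s (s z)} := by
  classical
  have hΦs : ∀ z, Φ (s z) = Φ z := fun z => ((hΦ z (s z)).2 (Or.inr (Or.inl rfl))).symm
  have hsinj : Function.Injective s := fun a b h => by
    have := congrArg (fun x => s (s x)) h
    simpa [hs] using this
  -- the disjoint union
  let W := {p : Fin 3 × Z // φ p.2 = s^[(p.1 : ℕ)] p.2}
  let T := {y : Y // ∃ z, Φ z = y ∧ Φ (φ z) = Φ z}
  have hit : ∀ (i : Fin 3) z, Φ (s^[(i : ℕ)] z) = Φ z := by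
    intro i z
    fin_cases i <;> simp [hΦs]
  let g : W → T := fun p => ⟨Φ p.1.2, p.1.2, rfl, by rw [p.2]; exact hit _ _⟩
  have hW : Nat.card W = Nat.card {z // φ z = z} + Nat.card {z // φ z = s z}
      + Nat.card {z // φ z = s (s z)} := by
    let e : W ≃ (({z // φ z = z} ⊕ {z // φ z = s z}) ⊕ {z // φ z = s (s z)}) :=
      { toFun := fun p => match p with
          | ⟨(0, z), h⟩ => Sum.inl (Sum.inl ⟨z, h⟩)
          | ⟨(1, z), h⟩ => Sum.inl (Sum.inr ⟨z, h⟩)
          | ⟨(2, z), h⟩ => Sum.inr ⟨z, h⟩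
        invFun := fun p => match p with
          | Sum.inl (Sum.inl z) => ⟨(0, z.1), z.2⟩
          | Sum.inl (Sum.inr z) => ⟨(1, z.1), z.2⟩
          | Sum.inr z => ⟨(2, z.1), z.2⟩
        left_inv := by
          rintro ⟨⟨i, z⟩, h⟩
          fin_cases i <;> rfl
        right_inv := by
          rintro ((z | z) | z) <;> rfl }
    rw [Nat.card_congr e, Nat.card_sum, Nat.card_sum]
  have hfinW : Finite W := by
    have : Finite {p : Fin 3 × Z // φ p.2 = s^[(p.1 : ℕ)] p.2} := by
      let f : W → Fin 3 × (({z // φ z = z} ⊕ {z // φ z = s z}) ⊕ {z // φ z = s (s z)}) :=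
        fun p => match p with
          | ⟨(0, z), h⟩ => (0, Sum.inl (Sum.inl ⟨z, h⟩))
          | ⟨(1, z), h⟩ => (1, Sum.inl (Sum.inr ⟨z, h⟩))
          | ⟨(2, z), h⟩ => (2, Sum.inr ⟨z, h⟩)
      apply Finite.of_injective f
      rintro ⟨⟨i, z⟩, h⟩ ⟨⟨j, z'⟩, h'⟩ hf
      fin_cases i <;> fin_cases j <;> simp_all [f]
    exact this
  have hgsurj : Function.Surjective g := by
    rintro ⟨y, z, rfl, hz⟩
    rcases (hΦ z (φ z)).1 hz.symm with h | h | h
    · exact ⟨⟨(0, z), h⟩, rfl⟩
    · exact ⟨⟨(1, z), h⟩, rfl⟩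
    · exact ⟨⟨(2, z), h⟩, rfl⟩
  have hfinT : Finite T := Finite.of_surjective g hgsurj
  have hfib : ∀ y : T, Nat.card {w : W // g w = y} = 3 := by
    rintro ⟨y, z, rfl, hz⟩
    have hz' := (hΦ z (φ z)).1 hz.symm
    obtain ⟨j, hj⟩ : ∃ j : Fin 3, φ z = s^[(j : ℕ)] z := by
      rcases hz' with h | h | h
      · exact ⟨0, h⟩
      · exact ⟨1, h⟩
      · exact ⟨2, h⟩
    have hcomm : ∀ (i : ℕ), φ (s^[i] z) = s^[i] (φ z) := by
      intro i
      induction i with
      | zero => rfl
      | succ n ih => rw [Function.iterate_succ_apply', hφ, ih, Function.iterate_succ_apply']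
    have hji : ∀ i : Fin 3, φ (s^[(i : ℕ)] z) = s^[(j : ℕ)] (s^[(i : ℕ)] z) := by
      intro i
      rw [hcomm, hj, ← Function.iterate_add_apply, ← Function.iterate_add_apply, add_comm]
    have key : ∀ w : W, g w = ⟨Φ z, z, rfl, hz⟩ ↔ (w.1.2 = z ∨ w.1.2 = s z ∨ w.1.2 = s (s z)) := by
      intro w
      rw [← hΦ]
      constructor
      · intro h; exact (congrArg Subtype.val h).symm
      · intro h; exact Subtype.ext h.symm
    rw [← Nat.card_fin 3]
    by_cases hfix : s z = z
    · have hall : ∀ i : ℕ, s^[i] z = z := by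
        intro i
        induction i with
        | zero => rfl
        | succ n ih => rw [Function.iterate_succ_apply', ih, hfix]
      refine (Nat.card_congr (Equiv.ofBijective
        (fun i : Fin 3 => (⟨⟨(i, z), by
          show φ z = s^[(i : ℕ)] z
          rw [hj, hall, hall]⟩, (key _).2 (Or.inl rfl)⟩ :
          {w : W // g w = ⟨Φ z, z, rfl, hz⟩})) ⟨?_, ?_⟩)).symm
      · intro a b hab
        have h1 := congrArg (fun w => w.1.1.1) hab
        exact h1
      · rintro ⟨⟨⟨i, z'⟩, hw⟩, hgw⟩
        refine ⟨i, ?_⟩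
        apply Subtype.ext
        apply Subtype.ext
        rcases (key _).1 hgw with h | h | h
        · exact Prod.ext rfl h.symm
        · exact Prod.ext rfl (by rw [hfix] at h; exact h.symm)
        · exact Prod.ext rfl (by rw [hfix, hfix] at h; exact h.symm)
    · have hfix2 : s (s z) ≠ z := by
        intro h
        apply hfix
        have := congrArg s h
        rw [hs] at this
        exact this.symm
      have hinj : ∀ a b : Fin 3, s^[(a : ℕ)] z = s^[(b : ℕ)] z → a = b := by
        intro a b h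
        fin_cases a <;> fin_cases b <;> first
          | rfl
          | exact absurd h hfix
          | exact absurd h.symm hfix
          | exact absurd h hfix2
          | exact absurd h.symm hfix2
          | exact absurd (hsinj h) hfix
          | exact absurd (hsinj h).symm hfix
      have hdist : ∀ (i : Fin 3) (z' : Z), (z' = z ∨ z' = s z ∨ z' = s (s z)) →
          φ z' = s^[(i : ℕ)] z' → i = j := by
        intro i z' hz' hi
        obtain ⟨l, rfl⟩ : ∃ l : Fin 3, z' = s^[(l : ℕ)] z := by
          rcases hz' with h | h | h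
          · exact ⟨0, h⟩
          · exact ⟨1, h⟩
          · exact ⟨2, h⟩
        rw [hji] at hi
        rw [← Function.iterate_add_apply, ← Function.iterate_add_apply, add_comm (j : ℕ),
          add_comm (i : ℕ), Function.iterate_add_apply, Function.iterate_add_apply] at hi
        have := Function.Injective.iterate hsinj (l : ℕ) hi
        exact (hinj _ _ this).symm
      refine (Nat.card_congr (Equiv.ofBijective
        (fun i : Fin 3 => (⟨⟨(j, s^[(i : ℕ)] z), hji i⟩, (key _).2 (by
          fin_cases i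
          · exact Or.inl rfl
          · exact Or.inr (Or.inl rfl)
          · exact Or.inr (Or.inr rfl))⟩ :
          {w : W // g w = ⟨Φ z, z, rfl, hz⟩})) ⟨?_, ?_⟩)).symm
      · intro a b hab
        have h1 := congrArg (fun w => w.1.1.2) hab
        exact hinj _ _ h1
      · rintro ⟨⟨⟨i, z'⟩, hw⟩, hgw⟩
        have hz'' := (key _).1 hgw
        have hij := hdist i z' hz'' hw
        subst hij
        rcases hz'' with h | h | h
        · exact ⟨0, Subtype.ext (Subtype.ext (Prod.ext rfl h.symm))⟩
        · exact ⟨1, Subtype.ext (Subtype.ext (Prod.ext rfl h.symm))⟩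
        · exact ⟨2, Subtype.ext (Subtype.ext (Prod.ext rfl h.symm))⟩
  rw [← hW]
  have := Fintype.ofFinite T
  rw [Nat.card_congr (Equiv.sigmaFiberEquiv g).symm, Nat.card_sigma]
  simp only [hfib]
  rw [Finset.sum_const, Finset.card_univ, smul_eq_mul, Nat.card_eq_fintype_card, mul_comm]

end Pool.Agent.Helper14
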