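import Mathlib
import Pool.Agent.Helper14.OortDefs

open Polynomial

set_option linter.unusedSectionVars false

namespace Pool.Agent.Helper14

variable {k L Ω : Type} [Field k] [Field L] [Field Ω] [Algebra k L] [Algebra k Ω]

/-- the place attached to a point, as a relation: `x` has value `a`. -/
def HasVal (P : CurvePoint k L Ω) (x : L) (a : Ω) : Prop :=
  ∃ h : x ∈ P.1.1, P.1.2 ⟨x, h⟩ = a

lemma HasVal.mem {P : CurvePoint k L Ω} {x : L} {a : Ω} (h : HasVal P x a) : x ∈ P.1.1 := h.1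

lemma exists_hasVal {P : CurvePoint k L Ω} {x : L} (h : x ∈ P.1.1) : ∃ a, HasVal P x a :=
  ⟨_, h, rfl⟩

lemma HasVal.unique {P : CurvePoint k L Ω} {x : L} {a b : Ω} (h : HasVal P x a)
    (h' : HasVal P x b) : a = b := by
  obtain ⟨h1, rfl⟩ := h
  obtain ⟨h2, rfl⟩ := h'
  rfl

lemma HasVal.congr {P : CurvePoint k L Ω} {x y : L} {a b : Ω} (h : HasVal P x a)
    (hx : x = y) (hab : a = b) : HasVal P y b := by subst hx; subst hab; exact h

lemma hasVal_algebraMap (P : CurvePoint k L Ω) (c : k) :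
    HasVal P (algebraMap k L c) (algebraMap k Ω c) := P.2 c

lemma hasVal_one (P : CurvePoint k L Ω) : HasVal P 1 1 := by
  simpa using hasVal_algebraMap P 1

lemma hasVal_zero (P : CurvePoint k L Ω) : HasVal P 0 0 := by
  simpa using hasVal_algebraMap P 0

lemma HasVal.add {P : CurvePoint k L Ω} {x y : L} {a b : Ω} (h : HasVal P x a)
    (h' : HasVal P y b) : HasVal P (x + y) (a + b) := by
  obtain ⟨h1, rfl⟩ := h
  obtain ⟨h2, rfl⟩ := h'
  exact ⟨add_mem h1 h2, map_add P.1.2 ⟨x, h1⟩ ⟨y, h2⟩⟩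

lemma HasVal.mul {P : CurvePoint k L Ω} {x y : L} {a b : Ω} (h : HasVal P x a)
    (h' : HasVal P y b) : HasVal P (x * y) (a * b) := by
  obtain ⟨h1, rfl⟩ := h
  obtain ⟨h2, rfl⟩ := h'
  exact ⟨mul_mem h1 h2, map_mul P.1.2 ⟨x, h1⟩ ⟨y, h2⟩⟩

lemma HasVal.neg {P : CurvePoint k L Ω} {x : L} {a : Ω} (h : HasVal P x a) :
    HasVal P (-x) (-a) := by
  obtain ⟨h1, rfl⟩ := h
  exact ⟨neg_mem h1, map_neg P.1.2 ⟨x, h1⟩⟩

lemma HasVal.sub {P : CurvePoint k L Ω} {x y : L} {a b : Ω} (h : HasVal P x a)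
    (h' : HasVal P y b) : HasVal P (x - y) (a - b) := by
  obtain ⟨h1, rfl⟩ := h
  obtain ⟨h2, rfl⟩ := h'
  exact ⟨sub_mem h1 h2, map_sub P.1.2 ⟨x, h1⟩ ⟨y, h2⟩⟩

lemma HasVal.pow {P : CurvePoint k L Ω} {x : L} {a : Ω} (h : HasVal P x a) (n : ℕ) :
    HasVal P (x ^ n) (a ^ n) := by
  obtain ⟨h1, rfl⟩ := h
  exact ⟨pow_mem h1 n, map_pow P.1.2 ⟨x, h1⟩ n⟩

lemma HasVal.sum {P : CurvePoint k L Ω} {ι : Type*} (s : Finset ι) {x : ι → L} {a : ι → Ω}
    (h : ∀ i ∈ s, HasVal P (x i) (a i)) : HasVal P (∑ i ∈ s, x i) (∑ i ∈ s, a i) := by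
  classical
  induction s using Finset.induction_on with
  | empty => simpa using hasVal_zero P
  | insert i s hi ih =>
    rw [Finset.sum_insert hi, Finset.sum_insert hi]
    exact (h i (Finset.mem_insert_self _ _)).add
      (ih fun j hj => h j (Finset.mem_insert_of_mem hj))

lemma HasVal.aeval {P : CurvePoint k L Ω} {x : L} {a : Ω} (h : HasVal P x a) (Q : k[X]) :
    HasVal P (Polynomial.aeval x Q) (Polynomial.aeval a Q) := by
  rw [Polynomial.aeval_eq_sum_range, Polynomial.aeval_eq_sum_range]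
  apply HasVal.sum
  intro i _
  rw [Algebra.smul_def, Algebra.smul_def]
  exact (hasVal_algebraMap P _).mul (h.pow i)

lemma point_ext {P P' : CurvePoint k L Ω} (h : ∀ x a, HasVal P x a ↔ HasVal P' x a) : P = P' := by
  have hV : P.1.1 = P'.1.1 := by
    apply ValuationSubring.ext
    intro x
    constructor
    · intro hx
      obtain ⟨a, ha⟩ := exists_hasVal hx
      exact ((h x a).1 ha).mem
    · intro hx
      obtain ⟨a, ha⟩ := exists_hasVal hx
      exact ((h x a).2 ha).mem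
  obtain ⟨⟨V, f⟩, hP⟩ := P
  obtain ⟨⟨V', f'⟩, hP'⟩ := P'
  simp only at hV
  subst hV
  have : f = f' := by
    ext ⟨x, hx⟩
    obtain ⟨_, h2⟩ := (h x (f ⟨x, hx⟩)).1 ⟨hx, rfl⟩
    exact h2.symm
  subst this
  rfl

lemma point_ext' {P P' : CurvePoint k L Ω} (h : ∀ x a, HasVal P x a → HasVal P' x a)
    (h' : ∀ x a, HasVal P' x a → HasVal P x a) : P = P' :=
  point_ext fun x a => ⟨h x a, h' x a⟩

section Alg

variable [Algebra.IsAlgebraic k Ω]

/-- If `x ∈ V` is not a unit then its value is zero. -/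
lemma HasVal.eq_zero {P : CurvePoint k L Ω} {x : L} {a : Ω} (h : HasVal P x a)
    (hx : P.1.1.valuation x < 1) : a = 0 := by
  by_contra ha
  have hint : IsIntegral k a := (Algebra.IsAlgebraic.isAlgebraic a).isIntegral
  set Q := minpoly k a with hQ
  have hQ0 : Q.coeff 0 ≠ 0 := minpoly.coeff_zero_ne_zero hint ha
  -- Q(x) = x * s + c with c = Q.coeff 0
  have h1 : HasVal P (Polynomial.aeval x Q) 0 := by
    have := h.aeval Q
    rwa [minpoly.aeval] at this
  have h2 : Polynomial.aeval x Q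
      = x * Polynomial.aeval x Q.divX + algebraMap k L (Q.coeff 0) := by
    have e := congrArg (Polynomial.aeval x) (Polynomial.divX_mul_X_add Q)
    rw [map_add, map_mul, Polynomial.aeval_X, Polynomial.aeval_C] at e
    rw [← e, mul_comm]
  set c := Q.coeff 0
  have hs : HasVal P (Polynomial.aeval x Q.divX) (Polynomial.aeval a Q.divX) := h.aeval _
  have hc1 : P.1.1.valuation (algebraMap k L c) = 1 := by
    have e1 : P.1.1.valuation (algebraMap k L c) ≤ 1 :=
      (ValuationSubring.valuation_le_one_iff _ _).2 (hasVal_algebraMap P c).mem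
    have e2 : P.1.1.valuation (algebraMap k L c⁻¹) ≤ 1 :=
      (ValuationSubring.valuation_le_one_iff _ _).2 (hasVal_algebraMap P c⁻¹).mem
    have e3 : P.1.1.valuation (algebraMap k L c) * P.1.1.valuation (algebraMap k L c⁻¹) = 1 := by
      rw [← map_mul, ← map_mul, mul_inv_cancel₀ hQ0, map_one, map_one]
    apply le_antisymm e1
    calc (1 : _) = P.1.1.valuation (algebraMap k L c) * P.1.1.valuation (algebraMap k L c⁻¹) :=
          e3.symm
      _ ≤ P.1.1.valuation (algebraMap k L c) * 1 := by gcongr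
      _ = _ := mul_one _
  have hlt : P.1.1.valuation (x * Polynomial.aeval x Q.divX) < 1 := by
    rw [map_mul]
    calc P.1.1.valuation x * P.1.1.valuation (Polynomial.aeval x Q.divX)
        ≤ P.1.1.valuation x * 1 := by
          gcongr
          exact (ValuationSubring.valuation_le_one_iff _ _).2 hs.mem
      _ = P.1.1.valuation x := mul_one _
      _ < 1 := hx
  have hv : P.1.1.valuation (Polynomial.aeval x Q) = 1 := by
    rw [h2, ← hc1]
    apply Valuation.map_add_eq_of_lt_right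
    rw [hc1]; exact hlt
  -- so the inverse is in V
  have hinv : (Polynomial.aeval x Q)⁻¹ ∈ P.1.1 := by
    rw [← ValuationSubring.valuation_le_one_iff, map_inv₀, hv, inv_one]
  obtain ⟨b, hb⟩ := exists_hasVal hinv
  have hne : Polynomial.aeval x Q ≠ 0 := by
    intro h0
    rw [h0, map_zero] at hv
    exact zero_ne_one hv
  have h3 := h1.mul hb
  rw [mul_inv_cancel₀ hne, zero_mul] at h3
  exact one_ne_zero ((hasVal_one P).unique h3)

lemma HasVal.inv {P : CurvePoint k L Ω} {x : L} {a : Ω} (h : HasVal P x a) (ha : a ≠ 0) :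
    HasVal P x⁻¹ a⁻¹ := by
  have hx : x⁻¹ ∈ P.1.1 := by
    by_contra hx
    apply ha
    apply h.eq_zero
    rw [← ValuationSubring.mem_nonunits_iff, ValuationSubring.mem_nonunits_iff_or]
    exact Or.inr hx
  have hx0 : x ≠ 0 := by
    rintro rfl
    exact ha (h.unique (hasVal_zero P))
  obtain ⟨b, hb⟩ := exists_hasVal hx
  have h1 := h.mul hb
  rw [mul_inv_cancel₀ hx0] at h1
  have h2 := (hasVal_one P).unique h1
  have : b = a⁻¹ := by field_simp; rw [mul_comm]; exact h2.symm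
  rwa [← this]

lemma HasVal.valuation_eq_one {P : CurvePoint k L Ω} {x : L} {a : Ω} (h : HasVal P x a)
    (ha : a ≠ 0) : P.1.1.valuation x = 1 := by
  have h1 := (ValuationSubring.valuation_le_one_iff _ _).2 h.mem
  rcases lt_or_eq_of_le h1 with h2 | h2
  · exact absurd (h.eq_zero h2) ha
  · exact h2

lemma HasVal.valuation_lt_one {P : CurvePoint k L Ω} {x : L} (h : HasVal P x 0) :
    P.1.1.valuation x < 1 := by
  have h1 := (ValuationSubring.valuation_le_one_iff _ _).2 h.mem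
  rcases lt_or_eq_of_le h1 with h2 | h2
  · exact h2
  · exfalso
    have hinv : x⁻¹ ∈ P.1.1 := by
      rw [← ValuationSubring.valuation_le_one_iff, map_inv₀, h2, inv_one]
    have hne : x ≠ 0 := by
      intro h0
      rw [h0, map_zero] at h2
      exact zero_ne_one h2
    obtain ⟨b, hb⟩ := exists_hasVal hinv
    have h3 := h.mul hb
    rw [mul_inv_cancel₀ hne, zero_mul] at h3
    exact one_ne_zero ((hasVal_one P).unique h3)

/-- either x has a value or x⁻¹ has value 0 -/
lemma hasVal_or (P : CurvePoint k L Ω) (x : L) : (∃ a, HasVal P x a) ∨ HasVal P x⁻¹ 0 := by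
  by_cases hx : x ∈ P.1.1
  · exact Or.inl (exists_hasVal hx)
  · right
    have h1 : x⁻¹ ∈ P.1.1 := (P.1.1.mem_or_inv_mem x).resolve_left hx
    obtain ⟨a, ha⟩ := exists_hasVal h1
    have : a = 0 := by
      apply ha.eq_zero
      rw [← ValuationSubring.mem_nonunits_iff, ValuationSubring.inv_mem_nonunits_iff]
      exact Or.inr hx
    rwa [this] at ha

lemma not_hasVal_of_inv {P : CurvePoint k L Ω} {x : L} (hx0 : x ≠ 0) (h : HasVal P x⁻¹ 0) (a : Ω) :
    ¬ HasVal P x a := by
  intro h'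
  have h1 := h'.mul h
  rw [mul_inv_cancel₀ hx0, mul_zero] at h1
  exact one_ne_zero ((hasVal_one P).unique h1)

end Alg

/-- if P's place is contained in P''s then equal -/
lemma point_ext_le [Algebra.IsAlgebraic k Ω] {P P' : CurvePoint k L Ω}
    (h : ∀ x a, HasVal P x a → HasVal P' x a) : P = P' := by
  apply point_ext' h
  intro x a hx
  rcases hasVal_or P x with ⟨b, hb⟩ | hb
  · have := (h x b hb).unique hx
    rwa [← this]
  · have h2 := h _ _ hb
    by_cases hx0 : x = 0
    · subst hx0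
      have := (hasVal_zero P').unique hx
      rw [← this]; exact hasVal_zero P
    · exact absurd hx (not_hasVal_of_inv hx0 h2 a)

/-- integral elements over a subring all of whose elements lie in V lie in V -/
lemma mem_of_isIntegral {V : ValuationSubring L} {R : Type*} [CommRing R] [Algebra R L]
    (hR : ∀ r : R, algebraMap R L r ∈ V) {x : L} (hx : IsIntegral R x) : x ∈ V := by
  let φ : R →+* V := (algebraMap R L).codRestrict V.toSubring hR
  have h1 : (algebraMap V L).comp φ = algebraMap R L := rfl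
  have hx2 : IsIntegral V x := by
    obtain ⟨p, hp, hp2⟩ := hx
    refine ⟨p.map φ, hp.map φ, ?_⟩
    rw [Polynomial.eval₂_map, h1]; exact hp2
  obtain ⟨y, rfl⟩ := (IsIntegrallyClosed.isIntegral_iff (R := V) (K := L)).1 hx2
  exact y.2

section comap

variable {L' : Type} [Field L'] [Algebra k L']

/-- pull back a point along an embedding of fields -/
def CurvePoint.comap (P : CurvePoint k L Ω) (σ : L' →ₐ[k] L) : CurvePoint k L' Ω :=
  ⟨⟨P.1.1.comap σ.toRingHom, P.1.2.comp
      ((σ.toRingHom.comp (P.1.1.comap σ.toRingHom).subtype).codRestrict P.1.1.toSubring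
        (fun x => x.2))⟩, fun c => by
    obtain ⟨h1, h2⟩ := P.2 c
    have e : σ.toRingHom (algebraMap k L' c) = algebraMap k L c := σ.commutes c
    refine ⟨by rw [ValuationSubring.mem_comap, e]; exact h1, ?_⟩
    rw [← h2]
    show P.1.2 _ = P.1.2 _
    congr 1
    apply Subtype.ext
    exact e⟩

lemma hasVal_comap (P : CurvePoint k L Ω) (σ : L' →ₐ[k] L) (x : L') (a : Ω) :
    HasVal (P.comap σ) x a ↔ HasVal P (σ x) a := by
  constructor
  · rintro ⟨h, rfl⟩
    exact ⟨h, rfl⟩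
  · rintro ⟨h, rfl⟩
    exact ⟨h, rfl⟩

end comap

section mapE

variable {E : Type} [Field E] [Algebra k E]

/-- push forward along an embedding of the value fields -/
def CurvePoint.map (P : CurvePoint k L E) (φ : E →ₐ[k] Ω) : CurvePoint k L Ω :=
  ⟨⟨P.1.1, φ.toRingHom.comp P.1.2⟩, fun c => by
    obtain ⟨h1, h2⟩ := P.2 c
    refine ⟨h1, ?_⟩
    show φ (P.1.2 _) = _
    rw [h2]; exact φ.commutes c⟩

lemma hasVal_map (P : CurvePoint k L E) (φ : E →ₐ[k] Ω) (x : L) (a : Ω) :
    HasVal (P.map φ) x a ↔ ∃ b, HasVal P x b ∧ φ b = a := by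
  constructor
  · rintro ⟨h, rfl⟩
    exact ⟨_, ⟨h, rfl⟩, rfl⟩
  · rintro ⟨b, ⟨h, rfl⟩, rfl⟩
    exact ⟨h, rfl⟩

lemma map_injective (φ : E →ₐ[k] Ω) :
    Function.Injective (fun P : CurvePoint k L E => P.map φ) := by
  intro P P' h
  apply point_ext
  intro x a
  have h1 := hasVal_map P φ x (φ a)
  have h2 := hasVal_map P' φ x (φ a)
  simp only at h
  rw [h] at h1
  have h3 : (∃ b, HasVal P x b ∧ φ b = φ a) ↔ HasVal P x a :=
    ⟨fun ⟨b, hb, e⟩ => by rwa [← φ.injective e], fun hb => ⟨a, hb, rfl⟩⟩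
  have h4 : (∃ b, HasVal P' x b ∧ φ b = φ a) ↔ HasVal P' x a :=
    ⟨fun ⟨b, hb, e⟩ => by rwa [← φ.injective e], fun hb => ⟨a, hb, rfl⟩⟩
  rw [← h3, ← h4, ← h1, ← h2]

/-- a point whose values all lie in the image of E descends to E -/
lemma exists_descent (P : CurvePoint k L Ω) (φ : E →ₐ[k] Ω)
    (h : ∀ x a, HasVal P x a → ∃ b, φ b = a) : ∃ P' : CurvePoint k L E, P'.map φ = P := by
  have hr : ∀ x : P.1.1, P.1.2 x ∈ φ.toRingHom.range := fun x => by
    obtain ⟨b, hb⟩ := h x (P.1.2 x) ⟨x.2, rfl⟩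
    exact ⟨b, hb⟩
  let e : E ≃+* φ.toRingHom.range := RingEquiv.ofBijective φ.toRingHom.rangeRestrict
    ⟨fun a b hab => φ.injective (congrArg Subtype.val hab), RingHom.rangeRestrict_surjective _⟩
  have he : ∀ b, φ (e.symm b) = b.1 := fun b => by
    have := e.apply_symm_apply b
    exact congrArg Subtype.val this
  let f' : P.1.1 →+* E := e.symm.toRingHom.comp (P.1.2.codRestrict φ.toRingHom.range hr)
  have hf' : ∀ x, φ (f' x) = P.1.2 x := fun x => he _
  refine ⟨⟨⟨P.1.1, f'⟩, fun c => ?_⟩, ?_⟩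
  · obtain ⟨h1, h2⟩ := P.2 c
    refine ⟨h1, ?_⟩
    apply φ.injective
    show φ (f' _) = _
    rw [hf', h2]; exact (φ.commutes c).symm
  · apply point_ext
    intro x a
    rw [hasVal_map]
    constructor
    · rintro ⟨b, ⟨h1, rfl⟩, rfl⟩
      exact ⟨h1, (hf' _).symm⟩
    · rintro ⟨h1, rfl⟩
      exact ⟨f' ⟨x, h1⟩, ⟨h1, rfl⟩, hf' _⟩

end mapE

end Pool.Agent.Helper14
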