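import Mathlib
import Pool.Agent.Helper14.PointAPI
import Pool.Agent.Helper14.CurveField

open Polynomial

set_option linter.unusedSectionVars false

namespace Pool.Agent.Helper14

section trdeg

variable (k : Type) [Field k]

instance : Algebra.IsAlgebraic k[X] (KK k) :=
  (IsFractionRing.comap_isAlgebraic_iff (A := k[X]) (K := RatFunc k) (C := KK k)).2 inferInstance

lemma algebraMap_KK_injective : Function.Injective (algebraMap k[X] (KK k)) := by
  rw [IsScalarTower.algebraMap_eq k[X] (RatFunc k) (KK k)]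
  exact (algebraMap (RatFunc k) (KK k)).injective.comp (RatFunc.algebraMap_injective k)

instance : FaithfulSMul k[X] (KK k) :=
  (faithfulSMul_iff_algebraMap_injective _ _).2 (algebraMap_KK_injective k)

lemma trdeg_KK : Algebra.trdeg k (KK k) = 1 := by
  have h := trdeg_add_eq k k[X] (A := KK k)
  rw [Polynomial.trdeg_of_isDomain, trdeg_eq_zero, add_zero] at h
  exact h.symm

variable {k}

lemma isAlgebraic_adjoin {x : KK k} (hx : Transcendental k x) :
    Algebra.IsAlgebraic (Algebra.adjoin k {x}) (KK k) := by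
  have h1 : AlgebraicIndependent k (fun _ : Unit => x) :=
    algebraicIndependent_unique_type_iff.2 hx
  have h2 : IsTranscendenceBasis k (fun _ : Unit => x) := by
    apply h1.isTranscendenceBasis_of_trdeg_le_of_finite
    rw [trdeg_KK]; simp
  have h3 := h2.isAlgebraic
  rwa [Set.range_const] at h3

/-- residue fields of places are algebraic over `k`. -/
lemma exists_poly_val_lt {W : ValuationSubring (KK k)}
    (hk : ∀ c : k, algebraMap k (KK k) c ∈ W) (hW : W ≠ ⊤) {x : KK k} (hx : x ∈ W) :
    ∃ Q : k[X], Q ≠ 0 ∧ W.valuation (aeval x Q) < 1 := by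
  by_contra hcon
  push Not at hcon
  have hmem : ∀ Q : k[X], aeval x Q ∈ W := by
    intro Q
    rw [Polynomial.aeval_eq_sum_range]
    apply sum_mem
    intro i _
    rw [Algebra.smul_def]
    exact mul_mem (hk _) (pow_mem hx _)
  have hv : ∀ Q : k[X], Q ≠ 0 → W.valuation (aeval x Q) = 1 := fun Q hQ =>
    le_antisymm ((ValuationSubring.valuation_le_one_iff _ _).2 (hmem Q)) (hcon Q hQ)
  have htr : Transcendental k x := by
    rintro ⟨Q, hQ, hQ2⟩
    have := hv Q hQ
    rw [hQ2, map_zero] at this
    exact zero_ne_one this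
  have halg := isAlgebraic_adjoin htr
  apply hW
  apply ValuationSubring.ext
  intro z
  simp only [ValuationSubring.mem_top, iff_true]
  obtain ⟨p, hp, hpz⟩ := halg.isAlgebraic z
  have hA : ∀ a : Algebra.adjoin k {x}, (a : KK k) ∈ W := by
    intro a
    obtain ⟨Q, hQ⟩ := (Algebra.adjoin_singleton_eq_range_aeval k x ▸ a.2 :
      (a : KK k) ∈ (aeval x : k[X] →ₐ[k] KK k).range)
    rw [← hQ]; exact hmem Q
  let φ : Algebra.adjoin k {x} →+* W :=
    (algebraMap (Algebra.adjoin k {x}) (KK k)).codRestrict W.toSubring hA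
  have hφ : (algebraMap W (KK k)).comp φ = algebraMap (Algebra.adjoin k {x}) (KK k) := rfl
  set l := p.leadingCoeff with hl
  have hl0 : l ≠ 0 := leadingCoeff_ne_zero.2 hp
  have hunit : IsUnit (φ l) := by
    rw [ValuationSubring.valuation_eq_one_iff]
    obtain ⟨Q, hQ⟩ := (Algebra.adjoin_singleton_eq_range_aeval k x ▸ l.2 :
      (l : KK k) ∈ (aeval x : k[X] →ₐ[k] KK k).range)
    show W.valuation (l : KK k) = 1
    rw [← hQ]
    apply hv
    rintro rfl
    apply hl0
    apply Subtype.ext
    rw [← hQ]; simp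
  have hint : IsIntegral W z := by
    have hlc : (p.map φ).leadingCoeff = φ l := by
      apply leadingCoeff_map_of_leadingCoeff_ne_zero
      intro h0
      rw [← hl, ] at h0
      rw [h0] at hunit
      exact not_isUnit_zero hunit
    refine ⟨C (hunit.unit⁻¹ : Wˣ).1 * p.map φ, ?_, ?_⟩
    · rw [Monic, leadingCoeff_mul, leadingCoeff_C, hlc]
      exact hunit.val_inv_mul
    · rw [eval₂_mul, eval₂_map, hφ]
      have : eval₂ (algebraMap (Algebra.adjoin k {x}) (KK k)) z p = 0 := hpz
      rw [this, mul_zero]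
  obtain ⟨y, rfl⟩ := (IsIntegrallyClosed.isIntegral_iff (R := W) (K := KK k)).1 hint
  exact y.2

end trdeg

end Pool.Agent.Helper14
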