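import Mathlib
import Pool.Agent.Helper14.Places1

open Polynomial

set_option linter.unusedSectionVars false

namespace Pool.Agent.Helper14

section genext

variable {k : Type} [Field k] {Ω : Type} [Field Ω] [Algebra k Ω]

lemma CurvePoint.ne_top_of_transcendental [Algebra.IsAlgebraic k Ω] {L : Type} [Field L]
    [Algebra k L] (P : CurvePoint k L Ω) {x : L} (hx : Transcendental k x) : P.1.1 ≠ ⊤ := by
  intro h
  apply hx
  let f : L →ₐ[k] Ω :=
    { toFun := fun x => P.1.2 ⟨x, by rw [h]; exact ValuationSubring.mem_top x⟩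
      map_one' := map_one P.1.2
      map_zero' := map_zero P.1.2
      map_mul' := fun a b => map_mul P.1.2 ⟨a, _⟩ ⟨b, _⟩
      map_add' := fun a b => map_add P.1.2 ⟨a, _⟩ ⟨b, _⟩
      commutes' := fun c => (P.2 c).2 }
  have := (Algebra.IsAlgebraic.isAlgebraic (R := k) (f x))
  exact (isAlgebraic_algHom_iff f f.toRingHom.injective).1 this

/-- extension of homomorphisms to points. -/
theorem exists_point_extending [IsAlgClosed Ω] [Algebra.IsAlgebraic k Ω]
    (A : Subalgebra k (KK k)) (f : A →ₐ[k] Ω) (hf : ∃ a : A, a ≠ 0 ∧ f a = 0) :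
    ∃ P : CurvePoint k (KK k) Ω, ∀ a : A, HasVal P a (f a) := by
  classical
  set I : Ideal A := RingHom.ker f with hI
  have hItop : I ≠ ⊤ := RingHom.ker_ne_top f
  obtain ⟨W, hAW, hIW⟩ := Ideal.image_subset_nonunits_valuationSubring (A := A.toSubring) I hItop
  have hA : ∀ a : A, (a : KK k) ∈ W := fun a => hAW a.2
  have hk : ∀ c : k, algebraMap k (KK k) c ∈ W := fun c => hA (algebraMap k A c)
  have hIn : ∀ a : A, f a = 0 → (a : KK k) ∈ W.nonunits := fun a ha =>
    hIW ⟨a, ha, rfl⟩
  have hWtop : W ≠ ⊤ := by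
    rintro rfl
    obtain ⟨a, ha, hfa⟩ := hf
    have h1 := hIn a hfa
    rw [ValuationSubring.mem_nonunits_iff] at h1
    have h2 : ((⊤ : ValuationSubring (KK k)).valuation (a : KK k)) = 1 := by
      have ha0 : (a : KK k) ≠ 0 := fun h => ha (Subtype.ext h)
      apply le_antisymm
      · exact (ValuationSubring.valuation_le_one_iff _ _).2 (ValuationSubring.mem_top _)
      · have h3 : (⊤ : ValuationSubring (KK k)).valuation ((a : KK k)⁻¹) ≤ 1 :=
          (ValuationSubring.valuation_le_one_iff _ _).2 (ValuationSubring.mem_top _)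
        rw [map_inv₀] at h3
        have h4 : (⊤ : ValuationSubring (KK k)).valuation (a : KK k) ≠ 0 := by
          rwa [ne_eq, map_eq_zero]
        exact (inv_le_one₀ (zero_lt_iff.2 h4)).1 h3
    exact absurd h1 (by rw [h2]; exact lt_irrefl _)
  -- residue field
  let κ := IsLocalRing.ResidueField W
  let ι : A →+* W := (algebraMap A (KK k)).codRestrict W.toSubring hA
  let ρ : W →+* κ := IsLocalRing.residue W
  have hmax : I.IsMaximal := by
    have hprime : I.IsPrime := RingHom.ker_isPrime f
    have hint : Algebra.IsIntegral k (A ⧸ I) := by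
      constructor
      intro x
      let g : (A ⧸ I) →ₐ[k] Ω := Ideal.Quotient.liftₐ I f (fun a ha => ha)
      have hg : Function.Injective g := by
        rw [injective_iff_map_eq_zero]
        intro y
        obtain ⟨a, rfl⟩ := Ideal.Quotient.mk_surjective y
        intro h
        exact Ideal.Quotient.eq_zero_iff_mem.2 h
      have : IsIntegral k (g x) := (Algebra.IsAlgebraic.isAlgebraic (g x)).isIntegral
      exact (isIntegral_algHom_iff g hg).1 this
    have hdom : IsDomain (A ⧸ I) := Ideal.Quotient.isDomain I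
    exact Ideal.Quotient.maximal_of_isField _
      ((Algebra.IsIntegral.isField_iff_isField
        (algebraMap k (A ⧸ I)).injective).1 (Field.toIsField k))
  let _ : Field (A ⧸ I) := Ideal.Quotient.field I
  have hker1 : ∀ a ∈ I, (ρ.comp ι) a = 0 := by
    intro a ha
    show IsLocalRing.residue W (ι a) = 0
    rw [IsLocalRing.residue_eq_zero_iff, IsLocalRing.mem_maximalIdeal]
    exact (ValuationSubring.mem_nonunits_iff_exists_mem_maximalIdeal.1 (hIn a ha)).2
  let _ : Algebra (A ⧸ I) κ := (Ideal.Quotient.lift I (ρ.comp ι) hker1).toAlgebra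
  let _ : Algebra (A ⧸ I) Ω := (Ideal.Quotient.lift I f.toRingHom (fun a ha => ha)).toAlgebra
  have halg : Algebra.IsAlgebraic (A ⧸ I) κ := by
    constructor
    intro z
    obtain ⟨x, rfl⟩ := IsLocalRing.residue_surjective z
    obtain ⟨Q, hQ0, hQ⟩ := exists_poly_val_lt hk hWtop x.2
    refine ⟨Q.map (algebraMap k (A ⧸ I)), ?_, ?_⟩
    · exact (Polynomial.map_ne_zero_iff (algebraMap k (A ⧸ I)).injective).2 hQ0
    · rw [aeval_def, eval₂_map]
      let κk : k →+* W := ι.comp (algebraMap k A)
      have e1 : (algebraMap (A ⧸ I) κ).comp (algebraMap k (A ⧸ I)) = ρ.comp κk := rfl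
      rw [e1]
      have e2 : eval₂ (ρ.comp κk) (ρ x) Q = ρ (eval₂ κk x Q) := by
        rw [hom_eval₂]
      show eval₂ (ρ.comp κk) (ρ x) Q = 0
      rw [e2]
      show IsLocalRing.residue W _ = 0
      rw [IsLocalRing.residue_eq_zero_iff, ValuationSubring.valuation_lt_one_iff]
      have e3 : ((eval₂ κk x Q : W) : KK k) = aeval (x : KK k) Q := by
        have := hom_eval₂ Q κk (W.subtype) x
        rw [aeval_def]
        exact this
      rw [e3]; exact hQ
  let g : κ →ₐ[A ⧸ I] Ω := IsAlgClosed.lift
  have hg : ∀ a : A, g (ρ (ι a)) = f a := by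
    intro a
    exact g.commutes (Ideal.Quotient.mk I a)
  refine ⟨⟨⟨W, g.toRingHom.comp ρ⟩, fun c => ⟨hk c, ?_⟩⟩, fun a => ⟨hA a, hg a⟩⟩
  have := hg (algebraMap k A c)
  rw [f.commutes] at this
  exact this

end genext

end Pool.Agent.Helper14
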