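import Mathlib
import Pool.Agent.Helper14.Places1

open Polynomial

set_option linter.unusedSectionVars false

namespace Pool.Agent.Helper14

section sep

variable {k : Type} [Field k]

lemma minpoly_yy : minpoly (RatFunc k) (yy k) = fK k := by
  rw [yy, AdjoinRoot.minpoly_root (fK_irreducible k).ne_zero, (fK_monic k).leadingCoeff, inv_one,
    map_one, mul_one]

lemma isSeparable_KK (h67 : (67 : k) ≠ 0) : Algebra.IsSeparable (RatFunc k) (KK k) := by
  have h1 : IsSeparable (RatFunc k) (yy k) := by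
    unfold IsSeparable
    rw [minpoly_yy]; exact fK_separable h67
  have h2 := (IntermediateField.isSeparable_adjoin_simple_iff_isSeparable _ _).2 h1
  have h3 : IntermediateField.adjoin (RatFunc k) {yy k} = ⊤ := by
    rw [← top_le_iff]
    intro x _
    have h4 : x ∈ Algebra.adjoin (RatFunc k) {yy k} := by
      have : Algebra.adjoin (RatFunc k) {AdjoinRoot.root (fK k)} = ⊤ :=
        AdjoinRoot.adjoinRoot_eq_top
      rw [yy, this]; exact Algebra.mem_top
    exact IntermediateField.algebra_adjoin_le_adjoin _ _ h4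
  rw [h3] at h2
  exact AlgEquiv.Algebra.isSeparable (IntermediateField.topEquiv (F := RatFunc k) (E := KK k))

lemma discr_KK (h67 : (67 : k) ≠ 0) : ∃ c : k, c ≠ 0 ∧
    Algebra.discr (RatFunc k) (AdjoinRoot.powerBasis (fK_irreducible k).ne_zero).basis
      = algebraMap k[X] (RatFunc k) (C c * uP k ^ 66) := by
  have := isSeparable_KK h67
  set pb := AdjoinRoot.powerBasis (fK_irreducible k).ne_zero with hpb
  have hgen : pb.gen = yy k := AdjoinRoot.powerBasis_gen _
  have hfin : Module.finrank (RatFunc k) (KK k) = 67 := by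
    rw [pb.finrank, hpb, AdjoinRoot.powerBasis_dim, fK_natDegree]
  have hN : Algebra.norm (RatFunc k) (yy k) = uu k := by
    rw [← hgen, Algebra.PowerBasis.norm_gen_eq_coeff_zero_minpoly, hgen, minpoly_yy,
      ← pb.finrank, hfin]
    simp only [fK, coeff_sub, coeff_X_pow, coeff_C_zero]
    rw [if_neg (by norm_num), zero_sub, Odd.neg_one_pow (by decide)]
    ring
  rw [Algebra.discr_powerBasis_eq_norm, hgen, minpoly_yy, hfin]
  have hder0 : ∀ (n : ℕ) (u : RatFunc k), derivative (X ^ n - C u) = C (n : RatFunc k) * X ^ (n - 1) :=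
    fun n u => by rw [derivative_sub, derivative_X_pow, derivative_C, sub_zero]
  have hder : aeval (yy k) (derivative (fK k))
      = algebraMap (RatFunc k) (KK k) ((67 : ℕ) : RatFunc k) * yy k ^ 66 := by
    have e := hder0 67 (uu k)
    have e2 : derivative (fK k) = C ((67 : ℕ) : RatFunc k) * X ^ 66 := e
    rw [e2, map_mul, aeval_C, map_pow, aeval_X]
  rw [hder, map_mul, Algebra.norm_algebraMap, map_pow, hN, hfin]
  refine ⟨(-1) ^ (67 * (67 - 1) / 2) * ((67 : ℕ) : k) ^ 67, ?_, ?_⟩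
  · apply mul_ne_zero
    · exact pow_ne_zero _ (neg_ne_zero.2 one_ne_zero)
    · exact pow_ne_zero _ (by exact_mod_cast h67)
  · rw [map_mul, map_pow, algebraMap_uP]
    rw [← mul_assoc]
    congr 1
    rw [RatFunc.algebraMap_C]
    rw [map_mul, map_pow, map_pow, map_neg, map_one]
    congr 2
    exact (map_natCast RatFunc.C 67).symm

lemma isIntegral_yy : IsIntegral k[X] (yy k) := by
  refine ⟨X ^ 67 - C (uP k), monic_X_pow_sub_C _ (by norm_num), ?_⟩
  rw [eval₂_sub, eval₂_pow, eval₂_X, eval₂_C, sub_eq_zero, yy_pow, uP, map_mul, map_pow, map_sub,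
    map_one, algebraMap_X]

lemma mem_adjoin_of_integral (h67 : (67 : k) ≠ 0) : ∃ c : k, c ≠ 0 ∧ ∀ z : KK k,
    IsIntegral k[X] z → algebraMap k[X] (KK k) (C c * uP k ^ 66) * z ∈
      Algebra.adjoin k[X] {yy k} := by
  obtain ⟨c, hc, h⟩ := discr_KK h67
  have := isSeparable_KK h67
  refine ⟨c, hc, fun z hz => ?_⟩
  have h1 := Algebra.discr_mul_isIntegral_mem_adjoin (RatFunc k) (R := k[X])
    (B := AdjoinRoot.powerBasis (fK_irreducible k).ne_zero) isIntegral_yy hz
  rw [h, algebraMap_smul, Algebra.smul_def] at h1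
  exact h1

end sep

section uniq

variable {k : Type} [Field k] {Ω : Type} [Field Ω] [Algebra k Ω]

lemma HasVal.polyMap {P : CurvePoint k (KK k) Ω} {t0 : Ω} (h : HasVal P (tt k) t0) (Q : k[X]) :
    HasVal P (algebraMap k[X] (KK k) Q) (Polynomial.aeval t0 Q) := by
  have e : algebraMap k[X] (KK k) Q = Polynomial.aeval (tt k) Q := by
    have : IsScalarTower.toAlgHom k k[X] (KK k) = Polynomial.aeval (tt k) := by
      apply Polynomial.algHom_ext
      simp [algebraMap_X]
    exact DFunLike.congr_fun this Q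
  rw [e]
  exact h.aeval Q

lemma hasVal_adjoin {P P' : CurvePoint k (KK k) Ω} {t0 y0 : Ω}
    (ht : HasVal P (tt k) t0) (ht' : HasVal P' (tt k) t0)
    (hy : HasVal P (yy k) y0) (hy' : HasVal P' (yy k) y0) (x : KK k)
    (hx : x ∈ Algebra.adjoin k[X] {yy k}) : ∃ a, HasVal P x a ∧ HasVal P' x a := by
  induction hx using Algebra.adjoin_induction with
  | mem x hx =>
    rw [Set.mem_singleton_iff] at hx
    subst hx
    exact ⟨y0, hy, hy'⟩
  | algebraMap r => exact ⟨_, ht.polyMap r, ht'.polyMap r⟩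
  | add x y _ _ h1 h2 =>
    obtain ⟨a, h3, h4⟩ := h1
    obtain ⟨b, h5, h6⟩ := h2
    exact ⟨a + b, h3.add h5, h4.add h6⟩
  | mul x y _ _ h1 h2 =>
    obtain ⟨a, h3, h4⟩ := h1
    obtain ⟨b, h5, h6⟩ := h2
    exact ⟨a * b, h3.mul h5, h4.mul h6⟩

lemma hasVal_integral (h67 : (67 : k) ≠ 0) {P P' : CurvePoint k (KK k) Ω} {t0 y0 : Ω}
    (h0 : t0 ≠ 0) (h1 : 1 - t0 ≠ 0)
    (ht : HasVal P (tt k) t0) (ht' : HasVal P' (tt k) t0)
    (hy : HasVal P (yy k) y0) (hy' : HasVal P' (yy k) y0) (z : KK k)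
    (hz : IsIntegral k[X] z) : ∃ a, HasVal P z a ∧ HasVal P' z a := by
  obtain ⟨c, hc, hcz⟩ := mem_adjoin_of_integral h67
  obtain ⟨d, hd, hd'⟩ := hasVal_adjoin ht ht' hy hy' _ (hcz z hz)
  obtain ⟨a, ha⟩ : ∃ a, HasVal P z a :=
    exists_hasVal (mem_of_isIntegral (fun r => (ht.polyMap r).mem) hz)
  obtain ⟨a', ha'⟩ : ∃ a, HasVal P' z a :=
    exists_hasVal (mem_of_isIntegral (fun r => (ht'.polyMap r).mem) hz)
  have e1 := hd.unique ((ht.polyMap _).mul ha)
  have e2 := hd'.unique ((ht'.polyMap _).mul ha')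
  have e3 : Polynomial.aeval t0 (C c * uP k ^ 66) ≠ 0 := by
    rw [map_mul, map_pow, uP, map_mul, map_pow, map_sub, map_one, aeval_C, aeval_X]
    exact mul_ne_zero ((map_ne_zero_iff _ (algebraMap k Ω).injective).2 hc)
      (pow_ne_zero _ (mul_ne_zero h0 (pow_ne_zero _ h1)))
  have e4 := mul_left_cancel₀ e3 (e1.symm.trans e2)
  exact ⟨a, ha, by rw [e4]; exact ha'⟩

theorem point_unique (h67 : (67 : k) ≠ 0) [Algebra.IsAlgebraic k Ω]
    {P P' : CurvePoint k (KK k) Ω} {t0 y0 : Ω}
    (h0 : t0 ≠ 0) (h1 : 1 - t0 ≠ 0)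
    (ht : HasVal P (tt k) t0) (ht' : HasVal P' (tt k) t0)
    (hy : HasVal P (yy k) y0) (hy' : HasVal P' (yy k) y0) : P = P' := by
  classical
  have hsep := isSeparable_KK h67
  have hval := hasVal_integral h67 h0 h1 ht ht' hy hy'
  let R := integralClosure k[X] (KK k)
  have hDed : IsDedekindDomain R := integralClosure.isDedekindDomain k[X] (RatFunc k) (KK k)
  have hFrac : IsFractionRing R (KK k) :=
    integralClosure.isFractionRing_of_finite_extension (RatFunc k) (KK k)
  have hR : ∀ r : R, (r : KK k) ∈ P.1.1 := fun r =>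
    mem_of_isIntegral (fun r => (ht.polyMap r).mem) r.2
  let φ : R →+* Ω := P.1.2.comp ((algebraMap R (KK k)).codRestrict P.1.1.toSubring hR)
  have hφ : ∀ r : R, HasVal P (r : KK k) (φ r) := fun r => ⟨hR r, rfl⟩
  let 𝔭 : Ideal R := RingHom.ker φ
  have h𝔭 : 𝔭.IsPrime := RingHom.ker_isPrime φ
  have h𝔭0 : 𝔭 ≠ ⊥ := by
    intro hbot
    -- minimal polynomial of t0
    have hm : minpoly k t0 ≠ 0 := minpoly.ne_zero (Algebra.IsAlgebraic.isAlgebraic t0).isIntegral
    have hmem : algebraMap k[X] R (minpoly k t0) ∈ 𝔭 := by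
      show φ _ = 0
      have e1 := hφ (algebraMap k[X] R (minpoly k t0))
      have e2 := ht.polyMap (minpoly k t0)
      rw [minpoly.aeval] at e2
      exact e1.unique e2
    rw [hbot] at hmem
    have e3 : algebraMap k[X] R (minpoly k t0) = 0 := hmem
    apply hm
    apply algebraMap_KK_injective k
    rw [map_zero]
    exact congrArg Subtype.val e3
  have hDVR := IsLocalization.AtPrime.isDiscreteValuationRing_of_dedekind_domain R h𝔭0
    (Localization.AtPrime 𝔭)
  -- every z is a quotient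
  have key : ∀ z : KK k, (∃ a b : R, φ b ≠ 0 ∧ z * (b : KK k) = a) ∨
      (∃ a b : R, φ b ≠ 0 ∧ z⁻¹ * (b : KK k) = a) := by
    let S := Localization.subalgebra.ofField (KK k) 𝔭.primeCompl
      (Ideal.primeCompl_le_nonZeroDivisors 𝔭)
    have hloc : IsLocalization.AtPrime S 𝔭 :=
      Localization.subalgebra.isLocalization_ofField _ _ _
    have hDVR := IsLocalization.AtPrime.isDiscreteValuationRing_of_dedekind_domain R h𝔭0 S
    have hS : ∀ x : KK k, x ∈ S → ∃ a b : R, φ b ≠ 0 ∧ x * (b : KK k) = a := by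
      rintro x ⟨a, b, hb, hx⟩
      have hb' : φ b ≠ 0 := fun h => hb h
      have hb0 : (b : KK k) ≠ 0 := by
        intro h0
        apply hb'
        have : b = 0 := Subtype.ext h0
        rw [this, map_zero]
      refine ⟨a, b, hb', ?_⟩
      rw [hx]
      show (a : KK k) * (b : KK k)⁻¹ * (b : KK k) = a
      rw [inv_mul_cancel_right₀ hb0]
    intro z
    rcases ValuationRing.isInteger_or_isInteger S z with h | h
    · left
      obtain ⟨x, rfl⟩ := h
      exact hS _ x.2
    · right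
      obtain ⟨x, hx⟩ := h
      have := hS _ x.2
      rw [← hx]; exact this
  have key2 : ∀ z : KK k, (∃ a b : R, φ b ≠ 0 ∧ z * (b : KK k) = a) →
      ∃ c, HasVal P z c ∧ HasVal P' z c := by
    rintro z ⟨a, b, hb, hz⟩
    obtain ⟨va, ha, ha'⟩ := hval a a.2
    obtain ⟨vb, hvb, hvb'⟩ := hval b b.2
    have hb2 : vb ≠ 0 := by rw [← (hφ b).unique hvb]; exact hb
    have hb0 : (b : KK k) ≠ 0 := by
      intro h0
      apply hb
      have : b = 0 := Subtype.ext h0
      rw [this, map_zero]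
    have hz' : z = (a : KK k) * (b : KK k)⁻¹ := by rw [← hz, mul_inv_cancel_right₀ hb0]
    rw [hz']
    exact ⟨_, ha.mul (hvb.inv hb2), ha'.mul (hvb'.inv hb2)⟩
  apply point_ext_le
  intro z c hzc
  rcases key z with h | h
  · obtain ⟨d, hd, hd'⟩ := key2 z h
    rw [hzc.unique hd]; exact hd'
  · obtain ⟨d, hd, hd'⟩ := key2 _ h
    by_cases hz0 : z = 0
    · subst hz0
      rw [hzc.unique (hasVal_zero P)]; exact hasVal_zero P'
    by_cases hd0 : d = 0
    · subst hd0
      exact absurd hzc (not_hasVal_of_inv hz0 hd c)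
    · have e1 := hd.inv hd0
      have e2 := hd'.inv hd0
      rw [inv_inv] at e1 e2
      rw [hzc.unique e1]; exact e2

end uniq

end Pool.Agent.Helper14
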