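import Mathlib
import Pool.Agent.Helper14.Places2
import Pool.Agent.Helper14.Places3

open Polynomial

set_option linter.unusedSectionVars false

namespace Pool.Agent.Helper14

section exist

variable {k : Type} [Field k] {Ω : Type} [Field Ω] [Algebra k Ω] [IsAlgClosed Ω]
  [Algebra.IsAlgebraic k Ω]

lemma exists_point_val {x : KK k} (hx : Transcendental k x) (x0 : Ω) :
    ∃ P : CurvePoint k (KK k) Ω, HasVal P x x0 := by
  have hinj := transcendental_iff_injective.1 hx
  let e : k[X] ≃ₐ[k] (aeval x : k[X] →ₐ[k] KK k).range := AlgEquiv.ofInjective _ hinj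
  let f : (aeval x : k[X] →ₐ[k] KK k).range →ₐ[k] Ω :=
    (aeval x0 : k[X] →ₐ[k] Ω).comp e.symm.toAlgHom
  have hf : ∀ Q, f (e Q) = aeval x0 Q := by
    intro Q
    show aeval x0 (e.symm (e Q)) = _
    rw [e.symm_apply_apply]
  obtain ⟨P, hP⟩ := exists_point_extending _ f ⟨e (minpoly k x0), by
    rw [ne_eq, EmbeddingLike.map_eq_zero_iff]
    exact minpoly.ne_zero (Algebra.IsAlgebraic.isAlgebraic x0).isIntegral, by
    rw [hf, minpoly.aeval]⟩
  refine ⟨P, ?_⟩
  have := hP (e X)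
  rw [hf, aeval_X] at this
  have e2 : ((e X : (aeval x : k[X] →ₐ[k] KK k).range) : KK k) = x := aeval_X x
  rwa [e2] at this

theorem point_exists (hμ : ∀ z : Ω, z ^ 67 = 1 → ∃ ζ : k, algebraMap k Ω ζ = z)
    {t0 y0 : Ω} (h0 : t0 ≠ 0) (h1 : 1 - t0 ≠ 0) (h : y0 ^ 67 = t0 * (1 - t0) ^ 29) :
    ∃ P : CurvePoint k (KK k) Ω, HasVal P (tt k) t0 ∧ HasVal P (yy k) y0 := by
  obtain ⟨P, hP⟩ := exists_point_val (tt_transcendental k) t0
  obtain ⟨y1, hy1⟩ : ∃ a, HasVal P (yy k) a :=
    exists_hasVal (mem_of_isIntegral (fun r => (hP.polyMap r).mem) isIntegral_yy)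
  have e1 : y1 ^ 67 = t0 * (1 - t0) ^ 29 := by
    have a1 := hy1.pow 67
    rw [yy_pow] at a1
    exact a1.unique (hP.mul (((hasVal_one P).sub hP).pow 29))
  have hy10 : y1 ≠ 0 := by
    rintro rfl
    rw [zero_pow (by norm_num)] at e1
    exact mul_ne_zero h0 (pow_ne_zero _ h1) e1.symm
  obtain ⟨ζ, hζ⟩ := hμ (y0 * y1⁻¹) (by
    rw [mul_pow, inv_pow, h, ← e1, mul_inv_cancel₀ (pow_ne_zero _ hy10)])
  have hζ1 : ζ ^ 67 = 1 := by
    apply (algebraMap k Ω).injective
    rw [map_pow, hζ, map_one, mul_pow, inv_pow, h, ← e1, mul_inv_cancel₀ (pow_ne_zero _ hy10)]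
  refine ⟨P.comap (tau ζ hζ1), ?_, ?_⟩
  · rw [hasVal_comap, tau_tt]; exact hP
  · rw [hasVal_comap, tau_yy]
    have := (hasVal_algebraMap P ζ).mul hy1
    rw [hζ, inv_mul_cancel_right₀ hy10] at this
    exact this

theorem exists_point_infty : ∃ P : CurvePoint k (KK k) Ω, HasVal P (tt k)⁻¹ 0 := by
  apply exists_point_val
  intro h
  apply tt_transcendental k
  simpa using h.inv

end exist

section infty

variable {k : Type} [Field k] {Ω : Type} [Field Ω] [Algebra k Ω]
  [Algebra.IsAlgebraic k Ω]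

lemma infty_poly {P : CurvePoint k (KK k) Ω} (hP : HasVal P (tt k)⁻¹ 0) (a : k[X]) :
    HasVal P (algebraMap k[X] (KK k) a * (tt k)⁻¹ ^ a.natDegree)
      (algebraMap k Ω a.leadingCoeff) := by
  have e1 : algebraMap k[X] (KK k) a = Polynomial.aeval (tt k) a := by
    have : IsScalarTower.toAlgHom k k[X] (KK k) = Polynomial.aeval (tt k) := by
      apply Polynomial.algHom_ext
      simp [algebraMap_X]
    exact DFunLike.congr_fun this a
  have e2 : Polynomial.aeval (tt k) a * (tt k)⁻¹ ^ a.natDegree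
      = Polynomial.aeval (tt k)⁻¹ a.reverse := by
    have ht := tt_ne_zero k
    let _ := invertibleOfNonzero ht
    have := Polynomial.eval₂_reverse_mul_pow (algebraMap k (KK k)) (tt k) a
    rw [invOf_eq_inv] at this
    rw [Polynomial.aeval_def, Polynomial.aeval_def, ← this, mul_assoc, ← mul_pow,
      mul_inv_cancel₀ ht, one_pow, mul_one]
  rw [e1, e2]
  have := hP.aeval a.reverse
  rwa [← Polynomial.coeff_zero_eq_aeval_zero', Polynomial.coeff_zero_reverse] at this

lemma infty_rat (r : RatFunc k) (hr : r ≠ 0) : ∃ c : k, c ≠ 0 ∧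
    ∀ P : CurvePoint k (KK k) Ω, HasVal P (tt k)⁻¹ 0 →
    HasVal P (algebraMap (RatFunc k) (KK k) r * (tt k) ^ (-r.intDegree)) (algebraMap k Ω c) := by
  have hn : r.num ≠ 0 := RatFunc.num_ne_zero hr
  have hd : r.denom ≠ 0 := RatFunc.denom_ne_zero r
  have hnl := leadingCoeff_ne_zero.2 hn
  have hdl := leadingCoeff_ne_zero.2 hd
  have ht := tt_ne_zero k
  refine ⟨r.num.leadingCoeff * r.denom.leadingCoeff⁻¹, mul_ne_zero hnl (inv_ne_zero hdl),
    fun P hP => ?_⟩
  have h1 := infty_poly hP r.num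
  have h2 := (infty_poly hP r.denom).inv ((map_ne_zero_iff _ (algebraMap k Ω).injective).2 hdl)
  have h3 := h1.mul h2
  rw [map_mul, map_inv₀]
  refine h3.congr ?_ rfl
  have e1 : algebraMap (RatFunc k) (KK k) r =
      algebraMap k[X] (KK k) r.num * (algebraMap k[X] (KK k) r.denom)⁻¹ := by
    conv_lhs => rw [← RatFunc.num_div_denom r, map_div₀]
    rw [div_eq_mul_inv, ← IsScalarTower.algebraMap_apply, ← IsScalarTower.algebraMap_apply]
  rw [e1, RatFunc.intDegree, mul_inv, neg_sub, zpow_sub₀ ht, zpow_natCast, zpow_natCast,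
    inv_pow, inv_pow, inv_inv]
  ring

lemma infty_rat_neg (r : RatFunc k) (hr : r = 0 ∨ r.intDegree < 0)
    {P : CurvePoint k (KK k) Ω} (hP : HasVal P (tt k)⁻¹ 0) :
    HasVal P (algebraMap (RatFunc k) (KK k) r) 0 := by
  by_cases hr0 : r = 0
  · rw [hr0, map_zero]; exact hasVal_zero P
  have hr := hr.resolve_left hr0
  obtain ⟨c, hc, h⟩ := infty_rat (Ω := Ω) r hr0
  obtain ⟨n, hn⟩ : ∃ n : ℕ, r.intDegree = -(n + 1 : ℕ) := by
    refine ⟨(-r.intDegree - 1).toNat, ?_⟩
    push_cast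
    rw [Int.toNat_of_nonneg (by omega)]; ring
  have h1 := (h P hP).mul (hP.pow (n + 1))
  rw [zero_pow (Nat.succ_ne_zero n), mul_zero] at h1
  refine h1.congr ?_ rfl
  rw [hn, neg_neg, zpow_natCast, mul_assoc, ← mul_pow, mul_inv_cancel₀ (tt_ne_zero k), one_pow,
    mul_one]

lemma infty_root {w : KK k} (r : RatFunc k) (hw : w ^ 67 = algebraMap (RatFunc k) (KK k) r)
    (hr : r = 0 ∨ r.intDegree < 0)
    {P : CurvePoint k (KK k) Ω} (hP : HasVal P (tt k)⁻¹ 0) : HasVal P w 0 := by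
  have h1 := infty_rat_neg r hr hP
  rw [← hw] at h1
  rcases hasVal_or P w with ⟨a, ha⟩ | h
  · have h2 := (ha.pow 67).unique h1
    rw [pow_eq_zero_iff (by norm_num)] at h2
    rw [← h2]; exact ha
  · by_cases hw0 : w = 0
    · rw [hw0]; exact hasVal_zero P
    · have h3 := h1.mul (h.pow 67)
      rw [← mul_pow, mul_inv_cancel₀ hw0, one_pow, zero_mul] at h3
      exact absurd ((hasVal_one P).unique h3) one_ne_zero

lemma intDegree_pow' {x : RatFunc k} (hx : x ≠ 0) (n : ℕ) :
    (x ^ n).intDegree = n * x.intDegree := intDegree_pow k hx n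

lemma yy_pow_alg (i : ℕ) : (yy k ^ i) ^ 67 = algebraMap (RatFunc k) (KK k) (uu k ^ i) := by
  rw [← pow_mul, mul_comm, pow_mul, yy_pow, map_pow, uu, map_mul, map_pow, map_sub, map_one]
  rfl

/-- the value at infinity of any element. -/
theorem infty_val (x : KK k) :
    (∃ c : k, ∀ P : CurvePoint k (KK k) Ω, HasVal P (tt k)⁻¹ 0 → HasVal P x (algebraMap k Ω c)) ∨
    (∀ P : CurvePoint k (KK k) Ω, HasVal P (tt k)⁻¹ 0 → HasVal P x⁻¹ 0) := by
  classical
  let pb := AdjoinRoot.powerBasis (fK_irreducible k).ne_zero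
  have hdim : pb.dim = 67 := by
    show (AdjoinRoot.powerBasis (fK_irreducible k).ne_zero).dim = 67
    rw [AdjoinRoot.powerBasis_dim, fK_natDegree]
  have hgen : pb.gen = yy k := AdjoinRoot.powerBasis_gen _
  obtain ⟨p, hp, hx⟩ := pb.exists_eq_aeval x
  rw [hdim] at hp
  rw [hgen, Polynomial.aeval_eq_sum_range' hp] at hx
  set T : ℕ → KK k := fun i => p.coeff i • yy k ^ i with hT
  by_cases hp0 : p = 0
  · left
    refine ⟨0, fun P _ => ?_⟩
    rw [hx, hT, hp0, map_zero]
    simp only [coeff_zero, zero_smul, Finset.sum_const_zero]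
    exact hasVal_zero P
  have hT67 : ∀ i, T i ^ 67 = algebraMap (RatFunc k) (KK k) (p.coeff i ^ 67 * uu k ^ i) := by
    intro i
    rw [hT]
    simp only
    rw [Algebra.smul_def, mul_pow, yy_pow_alg, map_mul]
    simp only [map_pow]
  let e : ℕ → ℤ := fun i => 67 * (p.coeff i).intDegree + 30 * i
  have he : ∀ i, p.coeff i ≠ 0 → (p.coeff i ^ 67 * uu k ^ i).intDegree = e i := by
    intro i hi
    rw [RatFunc.intDegree_mul (pow_ne_zero _ hi) (pow_ne_zero _ (uu_ne_zero k)),
      intDegree_pow' hi, intDegree_pow' (uu_ne_zero k), intDegree_uu]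
    show _ = 67 * (p.coeff i).intDegree + 30 * i
    push_cast; ring
  obtain ⟨i0, hi0, hmax⟩ := p.support.exists_max_image e (Polynomial.support_nonempty.2 hp0)
  have hi0' : p.coeff i0 ≠ 0 := mem_support_iff.1 hi0
  have hi0lt : i0 < 67 := lt_of_le_of_lt (le_natDegree_of_mem_supp _ hi0) hp
  have hT0 : T i0 ≠ 0 := by
    intro h
    have := hT67 i0
    rw [h, zero_pow (by norm_num)] at this
    have h2 := (map_eq_zero_iff _ (algebraMap (RatFunc k) (KK k)).injective).1 this.symm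
    exact mul_ne_zero (pow_ne_zero _ hi0') (pow_ne_zero _ (uu_ne_zero k)) h2
  have hlt : ∀ i < 67, i ≠ i0 → p.coeff i ≠ 0 → e i < e i0 := by
    intro i hi hne hc
    have h1 := hmax i (mem_support_iff.2 hc)
    apply lt_of_le_of_ne h1
    intro h2
    apply hne
    simp only [e] at h2
    omega
  have hratio : ∀ i < 67, i ≠ i0 → ∀ P : CurvePoint k (KK k) Ω, HasVal P (tt k)⁻¹ 0 →
      HasVal P (T i * (T i0)⁻¹) 0 := by
    intro i hi hne P hP
    by_cases hc : p.coeff i = 0
    · have : T i = 0 := by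
        show p.coeff i • yy k ^ i = 0
        rw [hc, zero_smul]
      rw [this, zero_mul]; exact hasVal_zero P
    · refine infty_root ((p.coeff i ^ 67 * uu k ^ i) * (p.coeff i0 ^ 67 * uu k ^ i0)⁻¹) ?_
        (Or.inr ?_) hP
      · rw [mul_pow, inv_pow, hT67, hT67, map_mul (algebraMap (RatFunc k) (KK k)) _ (_)⁻¹,
          map_inv₀]
      · have hne1 : p.coeff i ^ 67 * uu k ^ i ≠ 0 :=
          mul_ne_zero (pow_ne_zero _ hc) (pow_ne_zero _ (uu_ne_zero k))
        have hne2 : p.coeff i0 ^ 67 * uu k ^ i0 ≠ 0 :=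
          mul_ne_zero (pow_ne_zero _ hi0') (pow_ne_zero _ (uu_ne_zero k))
        rw [RatFunc.intDegree_mul hne1 (inv_ne_zero hne2), RatFunc.intDegree_inv, he i hc,
          he i0 hi0']
        have := hlt i hi hne hc
        omega
  have hone : ∀ P : CurvePoint k (KK k) Ω, HasVal P (tt k)⁻¹ 0 → HasVal P (x * (T i0)⁻¹) 1 := by
    intro P hP
    have h1 : HasVal P (∑ i ∈ Finset.range 67, T i * (T i0)⁻¹)
        (∑ i ∈ Finset.range 67, if i = i0 then 1 else 0) := by
      apply HasVal.sum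
      intro i hi
      by_cases hii : i = i0
      · rw [if_pos hii, hii, mul_inv_cancel₀ hT0]; exact hasVal_one P
      · rw [if_neg hii]
        exact hratio i (Finset.mem_range.1 hi) hii P hP
    rw [Finset.sum_ite_eq', if_pos (Finset.mem_range.2 hi0lt), ← Finset.sum_mul] at h1
    rw [hx]; exact h1
  rcases lt_trichotomy (e i0) 0 with hneg | hzero | hpos
  · left
    refine ⟨0, fun P hP => ?_⟩
    have h1 : HasVal P (T i0) 0 := infty_root _ (hT67 i0) (Or.inr (by rw [he i0 hi0']; exact hneg)) hP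
    have h2 := (hone P hP).mul h1
    rw [inv_mul_cancel_right₀ hT0, one_mul] at h2
    rwa [map_zero]
  · left
    have hi00 : i0 = 0 := by simp only [e] at hzero; omega
    have hdeg : (p.coeff i0).intDegree = 0 := by simp only [e] at hzero; omega
    obtain ⟨c, hc, h⟩ := infty_rat (Ω := Ω) (p.coeff i0) hi0'
    refine ⟨c, fun P hP => ?_⟩
    have h1 := h P hP
    rw [hdeg, neg_zero, zpow_zero, mul_one] at h1
    have h3 : T i0 = algebraMap (RatFunc k) (KK k) (p.coeff i0) := by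
      show p.coeff i0 • yy k ^ i0 = _
      rw [hi00, pow_zero, Algebra.smul_def, mul_one]
    rw [← h3] at h1
    have h2 := (hone P hP).mul h1
    rwa [inv_mul_cancel_right₀ hT0, one_mul] at h2
  · right
    intro P hP
    have h1 : HasVal P (T i0)⁻¹ 0 := by
      refine infty_root (p.coeff i0 ^ 67 * uu k ^ i0)⁻¹ ?_ (Or.inr ?_) hP
      · rw [inv_pow, hT67, map_inv₀]
      · rw [RatFunc.intDegree_inv, he i0 hi0']; omega
    have h2 := ((hone P hP).inv one_ne_zero).mul h1
    rw [inv_one, one_mul] at h2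
    refine h2.congr ?_ rfl
    rw [mul_inv, inv_inv, mul_assoc, mul_inv_cancel₀ hT0, mul_one]

theorem infty_unique {P P' : CurvePoint k (KK k) Ω} (hP : HasVal P (tt k)⁻¹ 0)
    (hP' : HasVal P' (tt k)⁻¹ 0) : P = P' := by
  apply point_ext_le
  intro x a hx
  rcases infty_val (Ω := Ω) x with ⟨c, hc⟩ | h
  · rw [hx.unique (hc P hP)]; exact hc P' hP'
  · by_cases hx0 : x = 0
    · subst hx0
      rw [hx.unique (hasVal_zero P)]; exact hasVal_zero P'
    · exact absurd hx (not_hasVal_of_inv hx0 (h P hP) a)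

end infty

end Pool.Agent.Helper14
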