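import Mathlib
import Pool.Agent.Helper14.Places4

open Polynomial

set_option linter.unusedSectionVars false

namespace Pool.Agent.Helper14

section FF

variable (k : Type) [Field k]

/-- the fixed field of `sig` -/
noncomputable def FF : IntermediateField k (KK k) where
  carrier := {x | sig k x = x}
  mul_mem' := by
    intro a b ha hb
    simp only [Set.mem_ofPred_eq] at *
    rw [map_mul, ha, hb]
  add_mem' := by
    intro a b ha hb
    simp only [Set.mem_ofPred_eq] at *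
    rw [map_add, ha, hb]
  algebraMap_mem' := fun c => (sig k).commutes c
  inv_mem' := by
    intro x hx
    simp only [Set.mem_ofPred_eq] at *
    rw [map_inv₀, hx]

variable {k}

lemma mem_FF {x : KK k} : x ∈ FF k ↔ sig k x = x := Iff.rfl

/-- w = t + σ t + σ² t -/
noncomputable def ww (k : Type) [Field k] : KK k := tt k + sig k (tt k) + sig k (sig k (tt k))

lemma ww_mem : ww k ∈ FF k := by
  rw [mem_FF, ww, map_add, map_add, sig3]; ring

noncomputable def wF (k : Type) [Field k] : FF k := ⟨ww k, ww_mem⟩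

end FF

section pts

variable {k : Type} [Field k] {Ω : Type} [Field Ω] [Algebra k Ω]

/-- restriction of points -/
noncomputable def res (P : CurvePoint k (KK k) Ω) : CurvePoint k (FF k) Ω := P.comap (FF k).val

lemma hasVal_res (P : CurvePoint k (KK k) Ω) (x : FF k) (a : Ω) :
    HasVal (res P) x a ↔ HasVal P (x : KK k) a := hasVal_comap P _ x a

lemma res_comap_sig (P : CurvePoint k (KK k) Ω) : res (P.comap (sig k)) = res P := by
  apply point_ext
  intro x a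
  rw [hasVal_res, hasVal_res, hasVal_comap]
  have : sig k (x : KK k) = x := x.2
  rw [this]

variable [Algebra.IsAlgebraic k Ω]

lemma hasVal_ww_inv {P : CurvePoint k (KK k) Ω} (h : HasVal P (tt k)⁻¹ 0) :
    HasVal P (ww k)⁻¹ 0 := by
  have h0 := tt_ne_zero k
  have h1 := one_sub_tt_ne_zero k
  -- w⁻¹ = t⁻¹ (1 - t⁻¹) (1 - 3 t⁻² + t⁻³)⁻¹
  have e : (ww k)⁻¹ = (tt k)⁻¹ * (1 - (tt k)⁻¹) *
      (1 - ((tt k)⁻¹ ^ 2 + (tt k)⁻¹ ^ 2 + (tt k)⁻¹ ^ 2) + (tt k)⁻¹ ^ 3)⁻¹ := by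
    have e1 : ww k = (1 - ((tt k)⁻¹ ^ 2 + (tt k)⁻¹ ^ 2 + (tt k)⁻¹ ^ 2) + (tt k)⁻¹ ^ 3) *
        ((tt k)⁻¹ * (1 - (tt k)⁻¹))⁻¹ := by
      rw [ww, sig2_tt, sig_tt]
      have h2 : tt k - 1 ≠ 0 := by
        intro h; apply h1; rw [← neg_sub, h, neg_zero]
      field_simp
      ring
    rw [e1, mul_inv, inv_inv, mul_comm]
  have v1 : HasVal P ((tt k)⁻¹ * (1 - (tt k)⁻¹)) 0 := by
    have := h.mul ((hasVal_one P).sub h)
    rwa [zero_mul] at this
  have v2 : HasVal P (1 - ((tt k)⁻¹ ^ 2 + (tt k)⁻¹ ^ 2 + (tt k)⁻¹ ^ 2) + (tt k)⁻¹ ^ 3) 1 := by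
    have := ((hasVal_one P).sub (((h.pow 2).add (h.pow 2)).add (h.pow 2))).add (h.pow 3)
    simpa using this
  rw [e]
  have := v1.mul (v2.inv one_ne_zero)
  rwa [zero_mul] at this

/-- the coordinates on the affine curve and the action of `sig` -/
def sMap (z : Ω × Ω) : Ω × Ω := ((1 - z.1)⁻¹, -z.2 ^ 29 * ((1 - z.1)⁻¹) ^ 13)

def Aff (z : Ω × Ω) : Prop := z.1 ≠ 0 ∧ 1 - z.1 ≠ 0 ∧ z.2 ^ 67 = z.1 * (1 - z.1) ^ 29

def At (P : CurvePoint k (KK k) Ω) (z : Ω × Ω) : Prop := HasVal P (tt k) z.1 ∧ HasVal P (yy k) z.2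

lemma Aff.sMap {z : Ω × Ω} (h : Aff z) : Aff (sMap z) := by
  obtain ⟨h0, h1, h2⟩ := h
  refine ⟨inv_ne_zero h1, ?_, ?_⟩
  · show 1 - (1 - z.1)⁻¹ ≠ 0
    rw [id_e2 h1]
    exact mul_ne_zero (neg_ne_zero.2 h0) (inv_ne_zero h1)
  · exact id_aux h1 h2

lemma sMap2 {z : Ω × Ω} (h : Aff z) :
    Helper14.sMap (Helper14.sMap z) = (1 - z.1⁻¹, -z.2 ^ 37 * z.1⁻¹ * ((1 - z.1)⁻¹) ^ 16) := by
  obtain ⟨h0, h1, h2⟩ := h
  apply Prod.ext
  · exact id_sig2_t h0 h1
  · exact id_sig2_y h0 h1 h2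

lemma sMap3 {z : Ω × Ω} (h : Aff z) :
    Helper14.sMap (Helper14.sMap (Helper14.sMap z)) = z := by
  have hz := h
  obtain ⟨h0, h1, h2⟩ := h
  rw [sMap2 hz.sMap]
  apply Prod.ext
  · show 1 - ((1 - z.1)⁻¹)⁻¹ = z.1
    rw [inv_inv]; ring
  · exact id_sig3_y h0 h1 h2

lemma At.aff {P : CurvePoint k (KK k) Ω} {z : Ω × Ω} (h : At P z) (h0 : z.1 ≠ 0)
    (h1 : 1 - z.1 ≠ 0) : Aff z := by
  refine ⟨h0, h1, ?_⟩
  have a1 := h.2.pow 67
  rw [yy_pow] at a1
  exact a1.unique (h.1.mul (((hasVal_one P).sub h.1).pow 29))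

lemma At.sig {P : CurvePoint k (KK k) Ω} {z : Ω × Ω} (h : At P z) (h1 : 1 - z.1 ≠ 0) :
    At (P.comap (sig k)) (Helper14.sMap z) := by
  have a1 := (((hasVal_one P).sub h.1).inv h1)
  refine ⟨?_, ?_⟩
  · rw [hasVal_comap, sig_tt]; exact a1
  · rw [hasVal_comap, sig_yy]
    exact (h.2.pow 29).neg.mul (a1.pow 13)

lemma At.unique {P : CurvePoint k (KK k) Ω} {z z' : Ω × Ω} (h : At P z) (h' : At P z') : z = z' :=
  Prod.ext (h.1.unique h'.1) (h.2.unique h'.2)

/-- trichotomy: every point restricts to a point under a finite point or to the infinite one. -/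
lemma point_cases (P : CurvePoint k (KK k) Ω) :
    (∃ z, Aff z ∧ At P z) ∨ ∃ P' : CurvePoint k (KK k) Ω, HasVal P' (tt k)⁻¹ 0 ∧ res P' = res P := by
  rcases hasVal_or P (tt k) with ⟨t0, ht⟩ | h
  · by_cases h0 : t0 = 0
    · right
      subst h0
      refine ⟨(P.comap (sig k)).comap (sig k), ?_, by rw [res_comap_sig, res_comap_sig]⟩
      rw [hasVal_comap, hasVal_comap, map_inv₀, map_inv₀, sig2_tt]
      have e : (1 - (tt k)⁻¹)⁻¹ = tt k * (tt k - 1)⁻¹ := by
        have h0 := tt_ne_zero k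
        have h1 := one_sub_tt_ne_zero k
        have h2 : tt k - 1 ≠ 0 := by
          intro h; apply h1; rw [← neg_sub, h, neg_zero]
        field_simp
      rw [e]
      have := ht.mul ((ht.sub (hasVal_one P)).inv (by simp))
      rwa [zero_mul] at this
    · by_cases h1 : 1 - t0 = 0
      · right
        refine ⟨P.comap (sig k), ?_, res_comap_sig P⟩
        rw [hasVal_comap, map_inv₀, sig_tt, inv_inv, ← h1]
        exact (hasVal_one P).sub ht
      · left
        obtain ⟨y0, hy⟩ : ∃ a, HasVal P (yy k) a :=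
          exists_hasVal (mem_of_isIntegral (fun r => (ht.polyMap r).mem) isIntegral_yy)
        have hz : At P (t0, y0) := ⟨ht, hy⟩
        exact ⟨(t0, y0), hz.aff h0 h1, hz⟩
  · exact Or.inr ⟨P, h, rfl⟩

lemma hasVal_ww_of_at {P : CurvePoint k (KK k) Ω} {z : Ω × Ω} (hz : Aff z) (h : At P z) :
    ∃ a, HasVal P (ww k) a := by
  obtain ⟨h0, h1, h2⟩ := hz
  have a1 := (((hasVal_one P).sub h.1).inv h1)
  rw [ww, sig2_tt, sig_tt]
  exact ⟨_, (h.1.add a1).add ((hasVal_one P).sub (h.1.inv h0))⟩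

lemma ww_ne_zero : ww k ≠ 0 := by
  obtain ⟨P, hP⟩ := exists_point_infty (k := k) (Ω := AlgebraicClosure k)
  intro h0
  have h := hasVal_ww_inv hP
  have h1 : (tt k)⁻¹ ^ 3 * ww k * (ww k)⁻¹ = 0 := by rw [h0]; simp
  -- use the relation t^3 - 3 t + 1 = w (t^2 - t)
  have e1 : ww k * (tt k ^ 2 - tt k) = tt k ^ 3 - 3 * tt k + 1 := by
    rw [ww, sig2_tt, sig_tt]
    have h0 := tt_ne_zero k
    have h1 := one_sub_tt_ne_zero k
    have h2 : tt k - 1 ≠ 0 := by
      intro h; apply h1; rw [← neg_sub, h, neg_zero]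
    field_simp
    ring
  rw [h0, zero_mul] at e1
  apply tt_transcendental k
  refine ⟨X ^ 3 - C 3 * X + 1, ?_, ?_⟩
  · intro h
    have := congrArg (fun p => coeff p 3) h
    simp [coeff_X, coeff_one] at this
  · simp only [map_add, map_sub, map_mul, map_pow, aeval_X, aeval_C, map_one, map_ofNat]
    exact e1.symm

lemma res_ne_infty {P P' : CurvePoint k (KK k) Ω} {z : Ω × Ω} (hz : Aff z) (h : At P z)
    (h' : HasVal P' (tt k)⁻¹ 0) : res P ≠ res P' := by
  intro e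
  obtain ⟨a, ha⟩ := hasVal_ww_of_at hz h
  have h2 := hasVal_ww_inv h'
  have ha' : HasVal (res P) (wF k) a := (hasVal_res P (wF k) a).2 ha
  rw [e, hasVal_res] at ha'
  exact not_hasVal_of_inv ww_ne_zero h2 a ha'

/-- elements fixed by `sig` have the same values at points with the same restriction. -/
lemma fixed_eq {P P' : CurvePoint k (KK k) Ω} (e : res P = res P') {x : KK k} {a a' : Ω}
    (hx : sig k x = x) (h : HasVal P x a) (h' : HasVal P' x a') : a = a' := by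
  have h1 : HasVal (res P) ⟨x, hx⟩ a := (hasVal_res P _ a).2 h
  rw [e, hasVal_res] at h1
  exact h1.unique h'

end pts

end Pool.Agent.Helper14
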