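import Mathlib
import Pool.Agent.Helper14.Places5

open Polynomial

set_option linter.unusedSectionVars false

namespace Pool.Agent.Helper14

section algebraic

variable {Ω : Type} [Field Ω]

lemma symm_match {t0 t1 t2 y0 y1 y2 t0' t1' t2' y0' y1' y2' : Ω}
    (h1 : t0 + t1 + t2 = t0' + t1' + t2')
    (h2 : y0 + y1 + y2 = y0' + y1' + y2')
    (h3 : t0 * t1 + t1 * t2 + t2 * t0 = t0' * t1' + t1' * t2' + t2' * t0')
    (h4 : (t0 * y1 + y0 * t1) + (t1 * y2 + y1 * t2) + (t2 * y0 + y2 * t0) =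
      (t0' * y1' + y0' * t1') + (t1' * y2' + y1' * t2') + (t2' * y0' + y2' * t0'))
    (h5 : y0 * y1 + y1 * y2 + y2 * y0 = y0' * y1' + y1' * y2' + y2' * y0')
    (h6 : t0 * t1 * t2 = t0' * t1' * t2')
    (h7 : t0 * t1 * y2 + t1 * t2 * y0 + t2 * t0 * y1 =
      t0' * t1' * y2' + t1' * t2' * y0' + t2' * t0' * y1')
    (h8 : t0 * y1 * y2 + t1 * y2 * y0 + t2 * y0 * y1 =
      t0' * y1' * y2' + t1' * y2' * y0' + t2' * y0' * y1')
    (h9 : y0 * y1 * y2 = y0' * y1' * y2') :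
    (t0' = t0 ∧ y0' = y0) ∨ (t0' = t1 ∧ y0' = y1) ∨ (t0' = t2 ∧ y0' = y2) := by
  have g1 := congrArg (C : Ω → Polynomial Ω) h1
  have g2 := congrArg (C : Ω → Polynomial Ω) h2
  have g3 := congrArg (C : Ω → Polynomial Ω) h3
  have g4 := congrArg (C : Ω → Polynomial Ω) h4
  have g5 := congrArg (C : Ω → Polynomial Ω) h5
  have g6 := congrArg (C : Ω → Polynomial Ω) h6
  have g7 := congrArg (C : Ω → Polynomial Ω) h7
  have g8 := congrArg (C : Ω → Polynomial Ω) h8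
  have g9 := congrArg (C : Ω → Polynomial Ω) h9
  simp only [map_add, map_mul] at g1 g2 g3 g4 g5 g6 g7 g8 g9
  have key : ((C t0' + C y0' * X) - (C t0 + C y0 * X)) *
      (((C t0' + C y0' * X) - (C t1 + C y1 * X)) *
      ((C t0' + C y0' * X) - (C t2 + C y2 * X))) = 0 := by
    set B := C t0' + C y0' * X with hB
    linear_combination (-B ^ 2) * (g1 + X * g2) + B * (g3 + X * g4 + X ^ 2 * g5)
      - (g6 + X * g7 + X ^ 2 * g8 + X ^ 3 * g9)
  have fin : ∀ a b a' b' : Ω, (C a' + C b' * X) - (C a + C b * X) = 0 → a' = a ∧ b' = b := by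
    intro a b a' b' h
    have e0 := congrArg (fun p => coeff p 0) h
    have e1 := congrArg (fun p => coeff p 1) h
    simp [coeff_C] at e0 e1
    exact ⟨sub_eq_zero.1 e0, sub_eq_zero.1 e1⟩
  rcases mul_eq_zero.1 key with h | h
  · exact Or.inl (fin _ _ _ _ h)
  · rcases mul_eq_zero.1 h with h | h
    · exact Or.inr (Or.inl (fin _ _ _ _ h))
    · exact Or.inr (Or.inr (fin _ _ _ _ h))

end algebraic

section pts

variable {k : Type} [Field k] {Ω : Type} [Field Ω] [Algebra k Ω] [Algebra.IsAlgebraic k Ω]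

lemma tr_eq {P P' : CurvePoint k (KK k) Ω} (e : res P = res P') {x0 x1 x2 : KK k}
    (h01 : sig k x0 = x1) (h12 : sig k x1 = x2) {a0 a1 a2 a0' a1' a2' : Ω}
    (v0 : HasVal P x0 a0) (v1 : HasVal P x1 a1) (v2 : HasVal P x2 a2)
    (v0' : HasVal P' x0 a0') (v1' : HasVal P' x1 a1') (v2' : HasVal P' x2 a2') :
    a0 + a1 + a2 = a0' + a1' + a2' := by
  refine fixed_eq e ?_ ((v0.add v1).add v2) ((v0'.add v1').add v2')
  rw [map_add, map_add, ← h12, ← h01, sig3]; ring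

lemma nm_eq {P P' : CurvePoint k (KK k) Ω} (e : res P = res P') {x0 x1 x2 : KK k}
    (h01 : sig k x0 = x1) (h12 : sig k x1 = x2) {a0 a1 a2 a0' a1' a2' : Ω}
    (v0 : HasVal P x0 a0) (v1 : HasVal P x1 a1) (v2 : HasVal P x2 a2)
    (v0' : HasVal P' x0 a0') (v1' : HasVal P' x1 a1') (v2' : HasVal P' x2 a2') :
    a0 * a1 * a2 = a0' * a1' * a2' := by
  refine fixed_eq e ?_ ((v0.mul v1).mul v2) ((v0'.mul v1').mul v2')
  rw [map_mul, map_mul, ← h12, ← h01, sig3]; ring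

/-- two finite points with the same restriction are conjugate. -/
theorem conj_of_res_eq {P P' : CurvePoint k (KK k) Ω} (e : res P = res P') {z z' : Ω × Ω}
    (hz : Aff z) (hz' : Aff z') (h : At P z) (h' : At P' z') :
    z' = z ∨ z' = sMap z ∨ z' = sMap (sMap z) := by
  have hs := h.sig hz.2.1
  have hss := hs.sig hz.sMap.2.1
  have hs' := h'.sig hz'.2.1
  have hss' := hs'.sig hz'.sMap.2.1
  obtain ⟨T0, Y0⟩ := h
  obtain ⟨T1, Y1⟩ := hs
  obtain ⟨T2, Y2⟩ := hss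
  obtain ⟨T0', Y0'⟩ := h'
  obtain ⟨T1', Y1'⟩ := hs'
  obtain ⟨T2', Y2'⟩ := hss'
  rw [hasVal_comap] at T1 Y1 T1' Y1' T2 Y2 T2' Y2'
  rw [hasVal_comap] at T2 Y2 T2' Y2'
  have st : sig k (sig k (sig k (tt k))) = tt k := sig3 k _
  have sy : sig k (sig k (sig k (yy k))) = yy k := sig3 k _
  have h1 := tr_eq e rfl rfl T0 T1 T2 T0' T1' T2'
  have h2 := tr_eq e rfl rfl Y0 Y1 Y2 Y0' Y1' Y2'
  have h3 := tr_eq e (x0 := tt k * sig k (tt k)) (x1 := sig k (tt k) * sig k (sig k (tt k)))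
    (x2 := sig k (sig k (tt k)) * tt k) (map_mul _ _ _) (by rw [map_mul, sig3])
    (T0.mul T1) (T1.mul T2) (T2.mul T0) (T0'.mul T1') (T1'.mul T2') (T2'.mul T0')
  have h4 := tr_eq e (x0 := tt k * sig k (yy k) + yy k * sig k (tt k))
    (x1 := sig k (tt k) * sig k (sig k (yy k)) + sig k (yy k) * sig k (sig k (tt k)))
    (x2 := sig k (sig k (tt k)) * yy k + sig k (sig k (yy k)) * tt k)
    (by rw [map_add, map_mul, map_mul]) (by rw [map_add, map_mul, map_mul, sig3, sig3])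
    ((T0.mul Y1).add (Y0.mul T1)) ((T1.mul Y2).add (Y1.mul T2)) ((T2.mul Y0).add (Y2.mul T0))
    ((T0'.mul Y1').add (Y0'.mul T1')) ((T1'.mul Y2').add (Y1'.mul T2'))
    ((T2'.mul Y0').add (Y2'.mul T0'))
  have h5 := tr_eq e (x0 := yy k * sig k (yy k)) (x1 := sig k (yy k) * sig k (sig k (yy k)))
    (x2 := sig k (sig k (yy k)) * yy k) (map_mul _ _ _) (by rw [map_mul, sig3])
    (Y0.mul Y1) (Y1.mul Y2) (Y2.mul Y0) (Y0'.mul Y1') (Y1'.mul Y2') (Y2'.mul Y0')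
  have h6 := nm_eq e rfl rfl T0 T1 T2 T0' T1' T2'
  have h7 := tr_eq e (x0 := tt k * sig k (tt k) * sig k (sig k (yy k)))
    (x1 := sig k (tt k) * sig k (sig k (tt k)) * yy k)
    (x2 := sig k (sig k (tt k)) * tt k * sig k (yy k))
    (by rw [map_mul, map_mul, sig3]) (by rw [map_mul, map_mul, sig3])
    ((T0.mul T1).mul Y2) ((T1.mul T2).mul Y0) ((T2.mul T0).mul Y1)
    ((T0'.mul T1').mul Y2') ((T1'.mul T2').mul Y0') ((T2'.mul T0').mul Y1')
  have h8 := tr_eq e (x0 := tt k * sig k (yy k) * sig k (sig k (yy k)))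
    (x1 := sig k (tt k) * sig k (sig k (yy k)) * yy k)
    (x2 := sig k (sig k (tt k)) * yy k * sig k (yy k))
    (by rw [map_mul, map_mul, sig3]) (by rw [map_mul, map_mul, sig3])
    ((T0.mul Y1).mul Y2) ((T1.mul Y2).mul Y0) ((T2.mul Y0).mul Y1)
    ((T0'.mul Y1').mul Y2') ((T1'.mul Y2').mul Y0') ((T2'.mul Y0').mul Y1')
  have h9 := nm_eq e rfl rfl Y0 Y1 Y2 Y0' Y1' Y2'
  rcases symm_match h1 h2 h3 h4 h5 h6 h7 h8 h9 with ⟨a, b⟩ | ⟨a, b⟩ | ⟨a, b⟩
  · exact Or.inl (Prod.ext a b)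
  · exact Or.inr (Or.inl (Prod.ext a b))
  · exact Or.inr (Or.inr (Prod.ext a b))

theorem res_eq_of_conj (h67 : (67 : k) ≠ 0) {P P' : CurvePoint k (KK k) Ω} {z z' : Ω × Ω}
    (hz : Aff z) (h : At P z) (h' : At P' z')
    (hc : z' = z ∨ z' = sMap z ∨ z' = sMap (sMap z)) : res P = res P' := by
  have hs := h.sig hz.2.1
  have hss := hs.sig hz.sMap.2.1
  rcases hc with rfl | rfl | rfl
  · rw [point_unique h67 hz.1 hz.2.1 h.1 h'.1 h.2 h'.2]
  · rw [← point_unique h67 hz.sMap.1 hz.sMap.2.1 hs.1 h'.1 hs.2 h'.2, res_comap_sig]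
  · rw [← point_unique h67 hz.sMap.sMap.1 hz.sMap.sMap.2.1 hss.1 h'.1 hss.2 h'.2, res_comap_sig,
      res_comap_sig]

lemma wF_transcendental : Transcendental k (wF k) := by
  obtain ⟨P1, hP1⟩ := exists_point_infty (k := k) (Ω := AlgebraicClosure k)
  intro halg
  have h1 : IsAlgebraic k (ww k) := (isAlgebraic_algHom_iff (FF k).val
    (FF k).val.toRingHom.injective).2 halg
  have h2 := hasVal_ww_inv hP1
  have h3 : ww k ∈ P1.1.1 :=
    mem_of_isIntegral (R := k) (fun r => (hasVal_algebraMap P1 r).mem) h1.isIntegral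
  obtain ⟨a, ha⟩ := exists_hasVal h3
  exact not_hasVal_of_inv ww_ne_zero h2 a ha

theorem res_surjective [IsAlgClosed Ω] (P : CurvePoint k (FF k) Ω) :
    ∃ P' : CurvePoint k (KK k) Ω, res P' = P := by
  let A : Subalgebra k (KK k) :=
    { carrier := {x | ∃ a, ∃ h : x ∈ FF k, HasVal P ⟨x, h⟩ a}
      mul_mem' := by
        rintro x y ⟨a, hx, ha⟩ ⟨b, hy, hb⟩
        exact ⟨a * b, mul_mem hx hy, ha.mul hb⟩
      add_mem' := by
        rintro x y ⟨a, hx, ha⟩ ⟨b, hy, hb⟩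
        exact ⟨a + b, add_mem hx hy, ha.add hb⟩
      algebraMap_mem' := fun c => ⟨_, (FF k).algebraMap_mem c, hasVal_algebraMap P c⟩ }
  have hA : ∀ x : A, ∃ h : (x : KK k) ∈ FF k, (⟨x, h⟩ : FF k) ∈ P.1.1 := fun x => by
    obtain ⟨a, h, h2⟩ := x.2
    exact ⟨h, h2.mem⟩
  let f : A →ₐ[k] Ω :=
    { toFun := fun x => P.1.2 ⟨⟨x, (hA x).1⟩, (hA x).2⟩
      map_one' := map_one P.1.2
      map_zero' := map_zero P.1.2
      map_mul' := fun a b => map_mul P.1.2 ⟨⟨a, (hA a).1⟩, (hA a).2⟩ ⟨⟨b, (hA b).1⟩, (hA b).2⟩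
      map_add' := fun a b => map_add P.1.2 ⟨⟨a, (hA a).1⟩, (hA a).2⟩ ⟨⟨b, (hA b).1⟩, (hA b).2⟩
      commutes' := fun c => (P.2 c).2 }
  have hex : ∃ a : A, a ≠ 0 ∧ f a = 0 := by
    have htop := P.ne_top_of_transcendental wF_transcendental
    have : ∃ x : FF k, x ∉ P.1.1 := by
      by_contra hcon
      push Not at hcon
      exact htop (ValuationSubring.ext _ _ fun x => ⟨fun _ => ValuationSubring.mem_top _,
        fun _ => hcon x⟩)
    obtain ⟨x, hx⟩ := this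
    have hx0 : x ≠ 0 := by
      rintro rfl
      exact hx (zero_mem _)
    rcases hasVal_or P x with ⟨a, ha⟩ | h
    · exact absurd ha.mem hx
    · refine ⟨⟨(x⁻¹ : FF k), 0, (x⁻¹).2, h⟩, ?_, ?_⟩
      · intro h0
        have : ((x⁻¹ : FF k) : KK k) = 0 := congrArg Subtype.val h0
        have h3 : x⁻¹ = 0 := Subtype.ext this
        exact hx0 (inv_eq_zero.1 h3)
      · exact h.2
  obtain ⟨P', hP'⟩ := exists_point_extending A f hex
  refine ⟨P', Eq.symm (point_ext_le ?_)⟩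
  intro x a ha
  rw [hasVal_res]
  have := hP' ⟨x, a, x.2, ha⟩
  have e : f ⟨x, a, x.2, ha⟩ = a := ha.2
  rwa [e] at this

end pts

end Pool.Agent.Helper14
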