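import Mathlib
import Pool.Agent.Helper14.Places6

open Polynomial

set_option linter.unusedSectionVars false

namespace Pool.Agent.Helper14

variable {k : Type} [Field k]

/-- an element of K algebraic over k is in k -/
lemma const_of_algebraic {x : KK k} (hx : IsAlgebraic k x) : ∃ c : k, algebraMap k (KK k) c = x := by
  obtain ⟨P, hP⟩ := exists_point_infty (k := k) (Ω := AlgebraicClosure k)
  have hmem : ∀ z : KK k, IsAlgebraic k z → ∃ a, HasVal P z a := fun z hz =>
    exists_hasVal (mem_of_isIntegral (R := k) (fun r => (hasVal_algebraMap P r).mem) hz.isIntegral)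
  by_cases hx0 : x = 0
  · exact ⟨0, by rw [hx0, map_zero]⟩
  rcases infty_val (Ω := AlgebraicClosure k) x with ⟨c, hc⟩ | h
  · refine ⟨c, ?_⟩
    by_contra hne
    have h1 : x - algebraMap k (KK k) c ≠ 0 := fun h => hne (sub_eq_zero.1 h).symm
    have h2 : IsAlgebraic k (x - algebraMap k (KK k) c) := hx.sub (isAlgebraic_algebraMap c)
    obtain ⟨b, hb⟩ := hmem _ h2.inv
    have h3 := ((hc P hP).sub (hasVal_algebraMap P c))
    rw [sub_self] at h3
    have h4 := h3.mul hb
    rw [mul_inv_cancel₀ h1, zero_mul] at h4
    exact one_ne_zero ((hasVal_one P).unique h4)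
  · obtain ⟨a, ha⟩ := hmem x hx
    exact absurd ha (not_hasVal_of_inv hx0 (h P hP) a)

/-- K is generated as a field by t and y over any intermediate field -/
lemma adjoin_tt_yy (M : Type) [Field M] [Algebra k M] [Algebra M (KK k)] [IsScalarTower k M (KK k)] :
    IntermediateField.adjoin M {tt k, yy k} = ⊤ := by
  rw [← top_le_iff]
  intro x _
  set S := IntermediateField.adjoin M {tt k, yy k} with hS
  have ht : tt k ∈ S := IntermediateField.subset_adjoin _ _ (by simp)
  have hy : yy k ∈ S := IntermediateField.subset_adjoin _ _ (by simp)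
  have hk : ∀ c : k, algebraMap k (KK k) c ∈ S := fun c => by
    rw [IsScalarTower.algebraMap_apply k M (KK k)]
    exact S.algebraMap_mem _
  have hpoly : ∀ Q : k[X], algebraMap k[X] (KK k) Q ∈ S := by
    intro Q
    have e : algebraMap k[X] (KK k) Q = Polynomial.aeval (tt k) Q := by
      have : IsScalarTower.toAlgHom k k[X] (KK k) = Polynomial.aeval (tt k) := by
        apply Polynomial.algHom_ext
        simp [algebraMap_X]
      exact DFunLike.congr_fun this Q
    rw [e, Polynomial.aeval_eq_sum_range]
    apply sum_mem
    intro i _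
    rw [Algebra.smul_def]
    exact mul_mem (hk _) (pow_mem ht _)
  have hrat : ∀ r : RatFunc k, algebraMap (RatFunc k) (KK k) r ∈ S := by
    intro r
    have e1 : algebraMap (RatFunc k) (KK k) r =
        algebraMap k[X] (KK k) r.num * (algebraMap k[X] (KK k) r.denom)⁻¹ := by
      conv_lhs => rw [← RatFunc.num_div_denom r, map_div₀]
      rw [div_eq_mul_inv, ← IsScalarTower.algebraMap_apply, ← IsScalarTower.algebraMap_apply]
    rw [e1]
    exact mul_mem (hpoly _) (inv_mem (hpoly _))
  obtain ⟨p, hp, hx⟩ := (AdjoinRoot.powerBasis (fK_irreducible k).ne_zero).exists_eq_aeval x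
  have hgen : (AdjoinRoot.powerBasis (fK_irreducible k).ne_zero).gen = yy k :=
    AdjoinRoot.powerBasis_gen _
  rw [hgen, Polynomial.aeval_eq_sum_range] at hx
  rw [hx]
  apply sum_mem
  intro i _
  rw [Algebra.smul_def]
  exact mul_mem (hrat _) (pow_mem hy _)

theorem isCurveFunctionField_FF : IsCurveFunctionField k (FF k) := by
  refine ⟨⟨wF k, wF_transcendental, ?_⟩, ?_⟩
  · set M := IntermediateField.adjoin k {wF k} with hM
    have hw : wF k ∈ M := IntermediateField.mem_adjoin_simple_self k _
    have htower : IsScalarTower k M (KK k) := inferInstance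
    have hfin : FiniteDimensional M (KK k) := by
      have h1 : IsIntegral M (tt k) := by
        -- t^3 - w t^2 + (w - 3) t + 1 = 0
        let w : M := ⟨wF k, hw⟩
        have hwm : algebraMap M (KK k) w = ww k := rfl
        refine ⟨X ^ 3 - C w * X ^ 2 + C (w - 3) * X + 1, ?_, ?_⟩
        · monicity!
        · rw [← aeval_def]
          simp only [map_add, map_sub, map_mul, map_pow, aeval_X, aeval_C, map_one, hwm, map_ofNat]
          have e1 : ww k * (tt k ^ 2 - tt k) = tt k ^ 3 - 3 * tt k + 1 := by
            rw [ww, sig2_tt, sig_tt]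
            have h0 := tt_ne_zero k
            have h1 := one_sub_tt_ne_zero k
            have h2 : tt k - 1 ≠ 0 := by
              intro h; apply h1; rw [← neg_sub, h, neg_zero]
            field_simp
            ring
          linear_combination -e1
      have h2 : IsIntegral M (yy k) := by
        have h3 : IsIntegral M (yy k ^ 67) := by
          rw [yy_pow]
          exact h1.mul ((isIntegral_one.sub h1).pow 29)
        exact IsIntegral.of_pow (by norm_num) h3
      have h3 : FiniteDimensional M (IntermediateField.adjoin M {tt k, yy k}) := by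
        apply IntermediateField.finiteDimensional_adjoin
        intro x hx
        rcases hx with rfl | hx
        · exact h1
        · rw [Set.mem_singleton_iff] at hx
          rw [hx]; exact h2
      rw [adjoin_tt_yy M] at h3
      exact (IntermediateField.topEquiv (F := M) (E := KK k)).toLinearEquiv.finiteDimensional
    exact FiniteDimensional.left M (FF k) (KK k)
  · intro x hx
    have h1 : IsAlgebraic k (x : KK k) := (isAlgebraic_algHom_iff (FF k).val
      (FF k).val.toRingHom.injective).2 hx
    obtain ⟨c, hc⟩ := const_of_algebraic h1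
    exact ⟨c, Subtype.ext hc⟩

end Pool.Agent.Helper14
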