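import Mathlib
import Pool.Agent.Helper14.Places7
import Pool.Agent.Helper14.OrbitCount
import Pool.Agent.Helper88.OortTwist

open Polynomial

set_option linter.unusedSectionVars false

namespace Pool.Agent.Helper14

/-- elements fixed by the Frobenius of `E` are in `E`. -/
lemma mem_of_pow_card {E L : Type} [Field E] [Fintype E] [Field L] [Algebra E L] {x : L}
    (hx : x ^ Fintype.card E = x) : ∃ a : E, algebraMap E L a = x := by
  classical
  have hQ : 1 < Fintype.card E := Fintype.one_lt_card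
  set f : Polynomial L := X ^ Fintype.card E - X with hf
  have hdeg : f.natDegree = Fintype.card E := by
    rw [hf]
    apply natDegree_sub_eq_left_of_natDegree_lt (by rw [natDegree_X, natDegree_X_pow]; exact hQ) |>.trans
    exact natDegree_X_pow _
  have hf0 : f ≠ 0 := by
    intro h
    rw [h, natDegree_zero] at hdeg
    omega
  have hroot : ∀ z : L, z ∈ f.roots ↔ z ^ Fintype.card E = z := by
    intro z
    rw [mem_roots hf0, IsRoot, hf, eval_sub, eval_pow, eval_X, sub_eq_zero]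
  set S : Finset L := Finset.univ.image (algebraMap E L) with hS
  have hScard : S.card = Fintype.card E := by
    rw [hS, Finset.card_image_of_injective _ (algebraMap E L).injective, Finset.card_univ]
  have hsub : S ⊆ f.roots.toFinset := by
    intro z hz
    obtain ⟨a, -, rfl⟩ := Finset.mem_image.1 hz
    rw [Multiset.mem_toFinset, hroot, ← map_pow, FiniteField.pow_card]
  have hle : f.roots.toFinset.card ≤ S.card := by
    rw [hScard, ← hdeg]
    exact (Multiset.toFinset_card_le _).trans (card_roots' f)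
  have heq := Finset.eq_of_subset_of_card_le hsub hle
  have hxS : x ∈ S := by
    rw [heq, Multiset.mem_toFinset, hroot]; exact hx
  obtain ⟨a, -, ha⟩ := Finset.mem_image.1 hxS
  exact ⟨a, ha⟩

section frob

variable {k E Ω : Type} [Field k] [Field E] [Field Ω] [Fintype E] [Algebra k E] [Algebra E Ω]
  [Algebra k Ω] [IsScalarTower k E Ω]

noncomputable def Fr (k E Ω : Type) [Field k] [Field E] [Field Ω] [Fintype E] [Algebra k E]
    [Algebra E Ω] [Algebra k Ω] [IsScalarTower k E Ω] : Ω →ₐ[k] Ω :=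
  (FiniteField.frobeniusAlgHom E Ω).restrictScalars k

lemma Fr_apply (x : Ω) : Fr k E Ω x = x ^ Fintype.card E := rfl

lemma res_map (P : CurvePoint k (KK k) Ω) (φ : Ω →ₐ[k] Ω) : res (P.map φ) = (res P).map φ := by
  apply point_ext
  intro x a
  rw [hasVal_res, hasVal_map, hasVal_map]
  simp only [hasVal_res]

lemma map_comp_algHom (P : CurvePoint k (FF k) E) (ψ : E →ₐ[k] Ω)
    (hψ : ∀ x, ψ x = algebraMap E Ω x) : (P.map ψ).map (Fr k E Ω) = P.map ψ := by
  apply point_ext
  intro x a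
  rw [hasVal_map]
  simp only [hasVal_map]
  constructor
  · rintro ⟨b, ⟨c, hc, rfl⟩, rfl⟩
    refine ⟨c, hc, ?_⟩
    rw [Fr_apply, hψ, ← map_pow, FiniteField.pow_card]
  · rintro ⟨c, hc, rfl⟩
    refine ⟨_, ⟨c, hc, rfl⟩, ?_⟩
    rw [Fr_apply, hψ, ← map_pow, FiniteField.pow_card]

lemma descends (R : CurvePoint k (FF k) Ω) (hR : R.map (Fr k E Ω) = R) (ψ : E →ₐ[k] Ω)
    (hψ : ∀ x, ψ x = algebraMap E Ω x) : ∃ P : CurvePoint k (FF k) E, P.map ψ = R := by
  apply exists_descent
  intro x a hx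
  have h1 : HasVal (R.map (Fr k E Ω)) x (Fr k E Ω a) := (hasVal_map R _ x _).2 ⟨a, hx, rfl⟩
  rw [hR] at h1
  have h2 := h1.unique hx
  rw [Fr_apply] at h2
  obtain ⟨b, hb⟩ := mem_of_pow_card h2
  exact ⟨b, by rw [hψ]; exact hb⟩

lemma aff_frob (φ : Ω →ₐ[k] Ω) {z : Ω × Ω} (hz : Aff z) : Aff (φ z.1, φ z.2) := by
  obtain ⟨h0, h1, h2⟩ := hz
  refine ⟨(map_ne_zero_iff _ φ.toRingHom.injective).2 h0, ?_, ?_⟩
  · show 1 - φ z.1 ≠ 0
    rw [← map_one φ, ← map_sub]
    exact (map_ne_zero_iff _ φ.toRingHom.injective).2 h1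
  · show φ z.2 ^ 67 = φ z.1 * (1 - φ z.1) ^ 29
    rw [← map_pow, h2, map_mul, map_pow, map_sub, map_one]

lemma sMap_frob (φ : Ω →ₐ[k] Ω) (z : Ω × Ω) :
    sMap (φ z.1, φ z.2) = (φ (sMap z).1, φ (sMap z).2) := by
  apply Prod.ext
  · show (1 - φ z.1)⁻¹ = φ ((1 - z.1)⁻¹)
    rw [map_inv₀, map_sub, map_one]
  · show -(φ z.2) ^ 29 * ((1 - φ z.1)⁻¹) ^ 13 = φ (-z.2 ^ 29 * ((1 - z.1)⁻¹) ^ 13)
    rw [map_mul, map_neg, map_pow, map_pow, map_inv₀, map_sub, map_one]

lemma at_map {P : CurvePoint k (KK k) Ω} {z : Ω × Ω} (h : At P z) (φ : Ω →ₐ[k] Ω) :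
    At (P.map φ) (φ z.1, φ z.2) :=
  ⟨(hasVal_map P φ _ _).2 ⟨_, h.1, rfl⟩, (hasVal_map P φ _ _).2 ⟨_, h.2, rfl⟩⟩

/-- the point count in terms of the three twisted counts on the affine curve. -/
theorem three_mul_card [IsAlgClosed Ω] [Algebra.IsAlgebraic k Ω] (h67 : (67 : k) ≠ 0)
    (hμ : ∀ z : Ω, z ^ 67 = 1 → ∃ ζ : k, algebraMap k Ω ζ = z)
    (F1 : Finite {z : Ω × Ω // Aff z ∧ (z.1 ^ Fintype.card E, z.2 ^ Fintype.card E) = sMap z})
    (F2 : Finite {z : Ω × Ω // Aff z ∧ (z.1 ^ Fintype.card E, z.2 ^ Fintype.card E)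
      = sMap (sMap z)}) :
    3 * Nat.card (CurvePoint k (FF k) E) = 3 +
      (Nat.card {P : E × E // P.1 ≠ 0 ∧ 1 - P.1 ≠ 0 ∧ P.2 ^ 67 = P.1 * (1 - P.1) ^ 29} +
      Nat.card {z : Ω × Ω // Aff z ∧ (z.1 ^ Fintype.card E, z.2 ^ Fintype.card E) = sMap z} +
      Nat.card {z : Ω × Ω // Aff z ∧ (z.1 ^ Fintype.card E, z.2 ^ Fintype.card E)
        = sMap (sMap z)}) := by
  classical
  let ψ : E →ₐ[k] Ω := IsScalarTower.toAlgHom k E Ω
  have hψ : ∀ x, ψ x = algebraMap E Ω x := fun x => rfl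
  let φ := Fr k E Ω
  let Z := {z : Ω × Ω // Aff z}
  let s : Z → Z := fun z => ⟨sMap z.1, z.2.sMap⟩
  let fr : Z → Z := fun z => ⟨(φ z.1.1, φ z.1.2), aff_frob φ z.2⟩
  have hpt : ∀ z : Z, ∃ P : CurvePoint k (KK k) Ω, At P z.1 := fun z => by
    obtain ⟨P, h1, h2⟩ := point_exists (Ω := Ω) hμ z.2.1 z.2.2.1 z.2.2.2
    exact ⟨P, h1, h2⟩
  choose Pt hPt using hpt
  let Φ : Z → CurvePoint k (FF k) Ω := fun z => res (Pt z)
  have hs3 : ∀ z : Z, s (s (s z)) = z := fun z => Subtype.ext (sMap3 z.2)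
  have hfs : ∀ z : Z, fr (s z) = s (fr z) := fun z => Subtype.ext (sMap_frob φ z.1).symm
  have hΦ : ∀ z z' : Z, Φ z = Φ z' ↔ (z' = z ∨ z' = s z ∨ z' = s (s z)) := by
    intro z z'
    constructor
    · intro h
      rcases conj_of_res_eq h z.2 z'.2 (hPt z) (hPt z') with h | h | h
      · exact Or.inl (Subtype.ext h)
      · exact Or.inr (Or.inl (Subtype.ext h))
      · exact Or.inr (Or.inr (Subtype.ext h))
    · intro h
      apply res_eq_of_conj h67 z.2 (hPt z) (hPt z')
      rcases h with h | h | h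
      · exact Or.inl (congrArg Subtype.val h)
      · exact Or.inr (Or.inl (congrArg Subtype.val h))
      · exact Or.inr (Or.inr (congrArg Subtype.val h))
  have hΦfr : ∀ z : Z, (Φ z).map φ = Φ (fr z) := by
    intro z
    show (res (Pt z)).map φ = res (Pt (fr z))
    rw [← res_map]
    have h1 := at_map (hPt z) φ
    have h2 := hPt (fr z)
    have hz := (fr z).2
    rw [point_unique h67 hz.1 hz.2.1 h1.1 h2.1 h1.2 h2.2]
  obtain ⟨P0, hP0⟩ := exists_point_infty (k := k) (Ω := Ω)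
  have hinf : (res P0).map φ = res P0 := by
    rw [← res_map]
    have : HasVal (P0.map φ) (tt k)⁻¹ 0 := (hasVal_map _ _ _ _).2 ⟨0, hP0, map_zero φ⟩
    rw [infty_unique this hP0]
  -- the points over E
  let T := {y : CurvePoint k (FF k) Ω // ∃ z, Φ z = y ∧ Φ (fr z) = Φ z}
  let S : Set (CurvePoint k (FF k) Ω) := {R | R.map φ = R}
  let TS : Set (CurvePoint k (FF k) Ω) := {y | ∃ z, Φ z = y ∧ Φ (fr z) = Φ z}
  have hST : S = insert (res P0) TS := by
    ext R
    constructor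
    · intro hR
      obtain ⟨P, rfl⟩ := res_surjective R
      rcases point_cases P with ⟨z, hz, hPz⟩ | ⟨P', hP', e⟩
      · right
        have e1 : Φ ⟨z, hz⟩ = res P := by
          show res (Pt ⟨z, hz⟩) = res P
          have h2 := hPt ⟨z, hz⟩
          rw [point_unique h67 hz.1 hz.2.1 h2.1 hPz.1 h2.2 hPz.2]
        refine ⟨⟨z, hz⟩, e1, ?_⟩
        rw [← hΦfr, e1]; exact hR
      · left
        rw [← e, infty_unique hP' hP0]
    · rintro (rfl | ⟨z, rfl, hz⟩)
      · exact hinf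
      · show (Φ z).map φ = Φ z
        rw [hΦfr]; exact hz
  have hnot : res P0 ∉ TS := by
    rintro ⟨z, hz, -⟩
    exact res_ne_infty z.2 (hPt z) hP0 hz
  -- the three finite sets
  have e0 : {z : Z // fr z = z} ≃
      {P : E × E // P.1 ≠ 0 ∧ 1 - P.1 ≠ 0 ∧ P.2 ^ 67 = P.1 * (1 - P.1) ^ 29} := by
    let f : {P : E × E // P.1 ≠ 0 ∧ 1 - P.1 ≠ 0 ∧ P.2 ^ 67 = P.1 * (1 - P.1) ^ 29} →
        {z : Z // fr z = z} := fun P => ⟨⟨(algebraMap E Ω P.1.1, algebraMap E Ω P.1.2), by
          refine ⟨(map_ne_zero_iff _ (algebraMap E Ω).injective).2 P.2.1, ?_, ?_⟩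
          · show 1 - algebraMap E Ω P.1.1 ≠ 0
            rw [← map_one (algebraMap E Ω), ← map_sub]
            exact (map_ne_zero_iff _ (algebraMap E Ω).injective).2 P.2.2.1
          · show algebraMap E Ω P.1.2 ^ 67 = algebraMap E Ω P.1.1 * (1 - algebraMap E Ω P.1.1) ^ 29
            rw [← map_pow, P.2.2.2, map_mul, map_pow, map_sub, map_one]⟩, by
          apply Subtype.ext
          apply Prod.ext
          · show algebraMap E Ω P.1.1 ^ Fintype.card E = _
            rw [← map_pow, FiniteField.pow_card]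
          · show algebraMap E Ω P.1.2 ^ Fintype.card E = _
            rw [← map_pow, FiniteField.pow_card]⟩
    refine (Equiv.ofBijective f ⟨?_, ?_⟩).symm
    · intro P P' h
      have h1 : (algebraMap E Ω P.1.1, algebraMap E Ω P.1.2)
          = (algebraMap E Ω P'.1.1, algebraMap E Ω P'.1.2) :=
        congrArg (fun z : {z : Z // fr z = z} => z.1.1) h
      have h2 := congrArg Prod.fst h1
      have h3 := congrArg Prod.snd h1
      exact Subtype.ext (Prod.ext ((algebraMap E Ω).injective h2) ((algebraMap E Ω).injective h3))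
    · rintro ⟨⟨⟨t0, y0⟩, hz⟩, hfz⟩
      have h1 : (t0 ^ Fintype.card E, y0 ^ Fintype.card E) = (t0, y0) := congrArg Subtype.val hfz
      obtain ⟨a, rfl⟩ := mem_of_pow_card (congrArg Prod.fst h1)
      obtain ⟨b, rfl⟩ := mem_of_pow_card (congrArg Prod.snd h1)
      refine ⟨⟨(a, b), ?_, ?_, ?_⟩, rfl⟩
      · rintro rfl
        exact hz.1 (map_zero _)
      · intro h
        apply hz.2.1
        show 1 - algebraMap E Ω a = 0
        rw [← map_one (algebraMap E Ω), ← map_sub, h, map_zero]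
      · apply (algebraMap E Ω).injective
        have := hz.2.2
        simp only at this
        rw [map_pow, this, map_mul, map_pow, map_sub, map_one]
  have e1 : {z : Z // fr z = s z} ≃
      {z : Ω × Ω // Aff z ∧ (z.1 ^ Fintype.card E, z.2 ^ Fintype.card E) = sMap z} :=
    { toFun := fun z => ⟨z.1.1, z.1.2, congrArg Subtype.val z.2⟩
      invFun := fun z => ⟨⟨z.1, z.2.1⟩, Subtype.ext z.2.2⟩
      left_inv := fun _ => rfl
      right_inv := fun _ => rfl }
  have e2 : {z : Z // fr z = s (s z)} ≃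
      {z : Ω × Ω // Aff z ∧ (z.1 ^ Fintype.card E, z.2 ^ Fintype.card E) = sMap (sMap z)} :=
    { toFun := fun z => ⟨z.1.1, z.1.2, congrArg Subtype.val z.2⟩
      invFun := fun z => ⟨⟨z.1, z.2.1⟩, Subtype.ext z.2.2⟩
      left_inv := fun _ => rfl
      right_inv := fun _ => rfl }
  have f0 : Finite {z : Z // fr z = z} := Finite.of_equiv _ e0.symm
  have f1 : Finite {z : Z // fr z = s z} := Finite.of_equiv _ e1.symm
  have f2 : Finite {z : Z // fr z = s (s z)} := Finite.of_equiv _ e2.symm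
  have hcount := orbit_count s fr hs3 hfs Φ hΦ f0 f1 f2
  rw [Nat.card_congr e0, Nat.card_congr e1, Nat.card_congr e2] at hcount
  -- TS is finite
  have hTSfin : TS.Finite := by
    have : TS ⊆ Φ '' ({z | fr z = z} ∪ {z | fr z = s z} ∪ {z | fr z = s (s z)}) := by
      rintro y ⟨z, rfl, hz⟩
      refine ⟨z, ?_, rfl⟩
      rcases (hΦ z (fr z)).1 hz.symm with h | h | h
      · exact Or.inl (Or.inl h)
      · exact Or.inl (Or.inr h)
      · exact Or.inr h
    refine Set.Finite.subset (Set.Finite.image _ ?_) this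
    have g0 : Finite {z : Z | fr z = z} := f0
    have g1 : Finite {z : Z | fr z = s z} := f1
    have g2 : Finite {z : Z | fr z = s (s z)} := f2
    exact ((Set.toFinite _).union (Set.toFinite _)).union (Set.toFinite _)
  have hcard : Nat.card (CurvePoint k (FF k) E) = Nat.card S := by
    refine Nat.card_congr (Equiv.ofBijective
      (fun P : CurvePoint k (FF k) E => (⟨P.map ψ, map_comp_algHom P ψ hψ⟩ : S)) ⟨?_, ?_⟩)
    · intro P P' h
      exact map_injective ψ (congrArg Subtype.val h)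
    · rintro ⟨R, hR⟩
      obtain ⟨P, hP⟩ := descends R hR ψ hψ
      exact ⟨P, Subtype.ext hP⟩
  have hcard2 : Nat.card S = Nat.card T + 1 := by
    rw [Nat.card_coe_set_eq, hST, Set.ncard_insert_of_notMem hnot hTSfin, ← Nat.card_coe_set_eq]
    rfl
  rw [hcard, hcard2, mul_add, mul_one, add_comm]
  congr 1

end frob

end Pool.Agent.Helper14
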