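import Mathlib
import Pool.Agent.Helper14.OortDefs
import Pool.Agent.Helper14.Places8
import Pool.Agent.Helper63.CardAffine
import Pool.Agent.Helper88.OortNewton
import Pool.Agent.Helper88.OortTraceFinal

open Polynomial

set_option linter.unusedSectionVars false

namespace Pool.Agent.Helper14

theorem infinite_primes :
    {p : ℕ | p.Prime ∧ (p : ZMod 67) ^ 33 = 1 ∧ (p : ZMod 67) ^ 3 ≠ 1}.Infinite := by
  have h4 : IsUnit ((4 : ℕ) : ZMod 67) := (ZMod.isUnit_iff_coprime 4 67).2 (by norm_num)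
  have e1 : ((4 : ℕ) : ZMod 67) ^ 33 = 1 := by decide
  have e2 : ((4 : ℕ) : ZMod 67) ^ 3 ≠ 1 := by decide
  have h := Nat.infinite_setOfPred_prime_and_eq_mod (q := 67) h4
  refine h.mono ?_
  rintro p ⟨hp, hp4⟩
  refine ⟨hp, ?_, ?_⟩
  · rw [hp4]; exact e1
  · rw [hp4]; exact e2

theorem points_count {p : ℕ} (hp : p.Prime) (h33 : (p : ZMod 67) ^ 33 = 1)
    (h3 : (p : ZMod 67) ^ 3 ≠ 1) {k E : Type} [Field k] [Fintype k]
    (hk : Fintype.card k = p ^ 33) [Field E] [Fintype E] [Algebra k E]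
    (χ : MulChar k ℂ) (hχ : orderOf χ = 67) :
    (Nat.card (CurvePoint k (FF k) E) : ℂ) = (Fintype.card E : ℂ) + 1 -
      11 * ((-jacobiSum χ (χ ^ 29)) ^ (Module.finrank k E)
          + (-jacobiSum χ⁻¹ (χ⁻¹ ^ 29)) ^ (Module.finrank k E)) := by
  classical
  have hfact : Fact p.Prime := ⟨hp⟩
  have hchark : CharP k p := by
    have h1 := CharP.exists k
    obtain ⟨r, hr⟩ := h1
    obtain ⟨n, hr', hn⟩ := FiniteField.card k r
    rw [hk] at hn
    have : r = p := by
      have h2 : p ∣ r ^ (n : ℕ) := by rw [← hn]; exact dvd_pow_self p (by norm_num)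
      exact ((Nat.prime_dvd_prime_iff_eq hp hr').1 (hp.dvd_of_dvd_pow h2)).symm
    rwa [this] at hr
  have hp67 : ¬ p ∣ 67 := by
    intro h
    have := (Nat.prime_dvd_prime_iff_eq hp (by norm_num)).1 h
    subst this
    revert h33; decide
  have h67 : (67 : k) ≠ 0 := by
    intro h
    apply hp67
    rw [← CharP.cast_eq_zero_iff k p]
    exact_mod_cast h
  have hmod : ∀ m, (p ^ 33) ^ m % 67 = 1 := by
    intro m
    have h1 : (((p ^ 33) ^ m : ℕ) : ZMod 67) = ((1 : ℕ) : ZMod 67) := by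
      push_cast; rw [h33, one_pow]
    rw [ZMod.natCast_eq_natCast_iff'] at h1
    simpa using h1
  let Ω := AlgebraicClosure E
  have : CharP Ω p := by
    have : CharP E p := charP_of_injective_algebraMap (algebraMap k E).injective p
    exact charP_of_injective_algebraMap (algebraMap E Ω).injective p
  have hfinE : FiniteDimensional k E := Module.Finite.of_finite
  have halg1 : Algebra.IsAlgebraic k E := inferInstance
  have halg : Algebra.IsAlgebraic k Ω := Algebra.IsAlgebraic.trans k E Ω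
  have hμ : ∀ z : Ω, z ^ 67 = 1 → ∃ ζ : k, algebraMap k Ω ζ = z := by
    intro z hz
    apply mem_of_pow_card
    rw [hk]
    have h1 := hmod 1
    rw [pow_one] at h1
    rw [← Nat.div_add_mod (p ^ 33) 67, h1, pow_add, pow_mul, hz, one_pow, one_mul, pow_one]
  set m := Module.finrank k E with hm
  have hmpos : 0 < m := Module.finrank_pos
  have hcardE : Fintype.card E = p ^ (33 * m) := by
    rw [Module.card_eq_pow_finrank (K := k) (V := E), hk, pow_mul]
  have hQ : p ^ (33 * m) % 67 = 1 := by rw [pow_mul]; exact hmod m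
  have t1 := Helper88.OortTwist.card_twist1 (Ω := Ω) hp (n := 33 * m) (by omega) hQ
  have t2 := Helper88.OortTwist.card_twist2 (Ω := Ω) hp (n := 33 * m) (by omega) hQ
  have c1 : Nat.card {z : Ω × Ω // Aff z ∧ (z.1 ^ Fintype.card E, z.2 ^ Fintype.card E) = sMap z}
      = Fintype.card E + 1 := by
    rw [hcardE, ← t1]
    apply Nat.card_congr
    apply Equiv.subtypeEquivRight
    intro z
    constructor
    · rintro ⟨⟨h0, h1, h2⟩, h⟩
      exact ⟨h0, h1, h2, congrArg Prod.fst h, congrArg Prod.snd h⟩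
    · rintro ⟨h0, h1, h2, h, h'⟩
      exact ⟨⟨h0, h1, h2⟩, Prod.ext h h'⟩
  have c2 : Nat.card {z : Ω × Ω // Aff z ∧ (z.1 ^ Fintype.card E, z.2 ^ Fintype.card E)
      = sMap (sMap z)} = Fintype.card E + 1 := by
    rw [hcardE, ← t2]
    apply Nat.card_congr
    apply Equiv.subtypeEquivRight
    intro z
    constructor
    · rintro ⟨⟨h0, h1, h2⟩, h⟩
      rw [sMap2 ⟨h0, h1, h2⟩] at h
      exact ⟨h0, h1, h2, congrArg Prod.fst h, congrArg Prod.snd h⟩
    · rintro ⟨h0, h1, h2, h, h'⟩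
      refine ⟨⟨h0, h1, h2⟩, ?_⟩
      rw [sMap2 ⟨h0, h1, h2⟩]
      exact Prod.ext h h'
  have F1 := Nat.finite_of_card_ne_zero (by rw [c1]; exact Nat.succ_ne_zero _ :
    Nat.card {z : Ω × Ω // Aff z ∧ (z.1 ^ Fintype.card E, z.2 ^ Fintype.card E) = sMap z} ≠ 0)
  have F2 := Nat.finite_of_card_ne_zero (by rw [c2]; exact Nat.succ_ne_zero _ :
    Nat.card {z : Ω × Ω // Aff z ∧ (z.1 ^ Fintype.card E, z.2 ^ Fintype.card E)
      = sMap (sMap z)} ≠ 0)
  have hmain := three_mul_card (k := k) (E := E) (Ω := Ω) h67 hμ F1 F2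
  rw [c1, c2] at hmain
  have haff := card_affine hp h33 h3 hk (E := E) χ hχ
  have hmainC := congrArg (Nat.cast : ℕ → ℂ) hmain
  push_cast at hmainC
  rw [haff] at hmainC
  linear_combination hmainC / 3

theorem main_theorem (p : ℕ) (hp : p.Prime) (h33 : (p : ZMod 67) ^ 33 = 1)
    (h3 : (p : ZMod 67) ^ 3 ≠ 1) (k : Type) [Field k] [Finite k] (hk : Nat.card k = p ^ 33) :
    ∃ (F : Type) (_ : Field F) (_ : Algebra k F), IsCurveFunctionField k F ∧
      ∃ L : ℤ[X], L.natDegree = 22 ∧ IsLPolynomial k F L ∧ IsNewtonPolygon p 33 L xi := by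
  classical
  have := Fintype.ofFinite k
  rw [Nat.card_eq_fintype_card] at hk
  have hdvd : 67 ∣ Fintype.card k - 1 := by
    rw [hk]
    have h1 : ((p ^ 33 : ℕ) : ZMod 67) = ((1 : ℕ) : ZMod 67) := by push_cast; rw [h33]
    rw [ZMod.natCast_eq_natCast_iff'] at h1
    omega
  obtain ⟨χ, hχ⟩ := MulChar.exists_mulChar_orderOf k hdvd
    (Complex.isPrimitiveRoot_exp 67 (by norm_num))
  obtain ⟨a, ha, hprod, hval⟩ := Helper88.OortTrace.exists_trace hp h33 h3 hk χ hχ
  obtain ⟨hdeg, hNP⟩ := Helper88.OortNewton.newton_polygon_LL hp hval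
  refine ⟨FF k, inferInstance, inferInstance, isCurveFunctionField_FF,
    (1 - C a * X + C ((p : ℤ) ^ 33) * X ^ 2) ^ 11, hdeg, ⟨?_, ?_⟩, hNP⟩
  · rw [coeff_zero_eq_eval_zero]; simp
  · intro E _ _ _
    have := Fintype.ofFinite E
    rw [points_count hp h33 h3 hk χ hχ]
    rw [Helper88.OortNewton.roots_sum_LL (q := (p : ℤ) ^ 33) (pow_ne_zero _ (by exact_mod_cast hp.ne_zero)) ha
      (by rw [hprod]; push_cast; rfl), Nat.card_eq_fintype_card]

theorem main_theorem' (p : ℕ) (hp : p.Prime) (h33 : (p : ZMod 67) ^ 33 = 1)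
    (h3 : (p : ZMod 67) ^ 3 ≠ 1) :
    ∃ (k F : Type) (_ : Field k) (_ : Finite k) (_ : CharP k p) (_ : Field F) (_ : Algebra k F),
      Nat.card k = p ^ 33 ∧ IsCurveFunctionField k F ∧
      ∃ L : ℤ[X], L.natDegree = 22 ∧ IsLPolynomial k F L ∧ IsNewtonPolygon p 33 L xi := by
  have : Fact p.Prime := ⟨hp⟩
  have hcard : Nat.card (GaloisField p 33) = p ^ 33 := GaloisField.card p 33 (by norm_num)
  obtain ⟨F, hF, hA, h⟩ := main_theorem p hp h33 h3 (GaloisField p 33) hcard
  exact ⟨GaloisField p 33, F, inferInstance, inferInstance, inferInstance, hF, hA, hcard, h⟩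

end Pool.Agent.Helper14
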